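import Pool.Agent.Run7.h945.SG.Proj

/-!
A power-saving bound for the corner-free subsets of `(F_2^n)^2` is equivalent to a bound by the
numbers of sums of the three projections.
-/

set_option autoImplicit false
set_option linter.unusedSectionVars false

namespace Pool.Agent.Run7.h945.SG

open Finset
open scoped Pointwise

variable {V : Type*} [AddCommGroup V] [DecidableEq V] [Module (ZMod 2) V]

/-- the product of the numbers of sums of the three projections -/
def P (A : Finset (V × V)) : ℕ :=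
  (px A + px A).card * (py A + py A).card * (ps A + ps A).card

lemma P_pos {A : Finset (V × V)} (h : A.Nonempty) : 0 < P A := by
  obtain ⟨a, ha⟩ := h
  refine Nat.mul_pos (Nat.mul_pos ?_ ?_) ?_
  · exact card_pos.2 ⟨_, add_mem_add (mem_px ha) (mem_px ha)⟩
  · exact card_pos.2 ⟨_, add_mem_add (mem_py ha) (mem_py ha)⟩
  · exact card_pos.2 ⟨_, add_mem_add (mem_ps ha) (mem_ps ha)⟩

/-- the three rotations of `A` -/
def rots (A : Finset (V × V)) : Fin 3 → Finset (V × V) :=
  ![A, A.map (rot (V := V)).toEmbedding,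
    (A.map (rot (V := V)).toEmbedding).map (rot (V := V)).toEmbedding]

lemma tri_rots {A : Finset (V × V)} (h : Tri A) (j : Fin 3) : Tri (rots A j) := by
  fin_cases j
  · exact h
  · exact h.rot
  · exact h.rot.rot

/-- the product of `N` copies of the three rotations -/
def big (A : Finset (V × V)) (N : ℕ) :
    Finset ((Fin N × Fin 3 → V) × (Fin N × Fin 3 → V)) := fam fun i => rots A i.2

lemma prod_big (N : ℕ) (f : Fin 3 → ℕ) : ∏ i : Fin N × Fin 3, f i.2 = (f 0 * f 1 * f 2) ^ N := by
  rw [Fintype.prod_prod_type]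
  simp only [prod_const, card_univ, Fintype.card_fin]
  rw [Fin.prod_univ_three]

lemma card_big (A : Finset (V × V)) (N : ℕ) : (big A N).card = (A.card ^ 3) ^ N := by
  rw [big, card_fam, prod_big N fun j => (rots A j).card]
  congr 1
  simp only [rots, Matrix.cons_val_zero, Matrix.cons_val_one, Matrix.cons_val_two, Matrix.head_cons,
    Matrix.tail_cons, card_map]
  ring

lemma px_big (A : Finset (V × V)) (N : ℕ) :
    (px (big A N) + px (big A N)).card = P A ^ N := by
  rw [big, px_fam, card_add_pi, prod_big N fun j => (px (rots A j) + px (rots A j)).card]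
  congr 1
  simp only [rots, Matrix.cons_val, px_rot, py_rot]
  rfl

lemma py_big (A : Finset (V × V)) (N : ℕ) :
    (py (big A N) + py (big A N)).card = P A ^ N := by
  rw [big, py_fam, card_add_pi, prod_big N fun j => (py (rots A j) + py (rots A j)).card]
  congr 1
  simp only [rots, Matrix.cons_val, py_rot, ps_rot, P]
  ring

lemma ps_big (A : Finset (V × V)) (N : ℕ) :
    (ps (big A N) + ps (big A N)).card = P A ^ N := by
  rw [big, ps_fam, card_add_pi, prod_big N fun j => (ps (rots A j) + ps (rots A j)).card]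
  congr 1
  simp only [rots, Matrix.cons_val, ps_rot, px_rot, P]
  ring

lemma tri_big {A : Finset (V × V)} (h : Tri A) (N : ℕ) : Tri (big A N) :=
  Tri.fam fun i => tri_rots h i.2

/-- **The bound by the sums of the projections.** -/
theorem sumset_bound [Finite V] {c : ℝ} (hc : c ≤ 1)
    (H : ∀ m : ℕ, (_root_.Run7.h125.Sat.Corner.rc m : ℝ) ≤ ((4 : ℝ) ^ (1 - c)) ^ m)
    {A : Finset (V × V)} (hA : Tri A) :
    (A.card : ℝ) ^ 3 ≤ (P A : ℝ) ^ (2 * (1 - c)) := by
  have hc' : 0 ≤ 2 * (1 - c) := by linarith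
  rcases A.eq_empty_or_nonempty with rfl | hne
  · rw [card_empty, Nat.cast_zero, zero_pow three_ne_zero]
    positivity
  have hP : (0 : ℝ) < P A := by exact_mod_cast P_pos hne
  refine le_of_pow_le (C := 6 ^ (2 * (1 - c))) (by positivity) (by positivity) ?_
  intro N _
  have hPN : 1 ≤ 3 * P A ^ N := by
    have := Nat.pow_pos (n := N) (P_pos hne)
    omega
  obtain ⟨m, hm1, hm2⟩ := exists_dim 2 one_lt_two (3 * P A ^ N) hPN
  have h1 : (big A N).card ≤ _root_.Run7.h125.Sat.Corner.rc m := by
    apply transfer (tri_big hA N)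
    calc _ ≤ (px (big A N) + px (big A N)).card + (py (big A N) + py (big A N)).card +
          (ps (big A N) + ps (big A N)).card :=
          (card_union_le _ _).trans (Nat.add_le_add_right (card_union_le _ _) _)
      _ = 3 * P A ^ N := by rw [px_big, py_big, ps_big]; ring
      _ ≤ _ := hm1
  have h2 : (((A.card : ℝ) ^ 3) ^ N) ≤ ((4 : ℝ) ^ (1 - c)) ^ m := by
    refine le_trans (le_of_eq ?_) ((Nat.cast_le.2 h1).trans (H m))
    rw [card_big]
    push_cast
    rfl
  have e4 : ((4 : ℝ) ^ (1 - c)) ^ m = ((2 : ℝ) ^ m) ^ (2 * (1 - c)) := by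
    rw [← Real.rpow_natCast, ← Real.rpow_natCast, ← Real.rpow_mul (by norm_num),
      ← Real.rpow_mul (by norm_num), show (4 : ℝ) = 2 ^ (2 : ℝ) by norm_num,
      ← Real.rpow_mul (by norm_num)]
    congr 1
    ring
  rw [e4] at h2
  have hm2' : (2 : ℝ) ^ m ≤ 6 * (P A : ℝ) ^ N := by
    have : ((2 ^ m : ℕ) : ℝ) ≤ ((2 * (3 * P A ^ N) : ℕ) : ℝ) := by exact_mod_cast hm2
    push_cast at this
    linarith
  calc ((A.card : ℝ) ^ 3) ^ N ≤ ((2 : ℝ) ^ m) ^ (2 * (1 - c)) := h2
    _ ≤ (6 * (P A : ℝ) ^ N) ^ (2 * (1 - c)) := Real.rpow_le_rpow (by positivity) hm2' hc'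
    _ = 6 ^ (2 * (1 - c)) * ((P A : ℝ) ^ (2 * (1 - c))) ^ N := by
        rw [Real.mul_rpow (by norm_num) (by positivity)]
        congr 1
        rw [← Real.rpow_natCast, ← Real.rpow_natCast, ← Real.rpow_mul hP.le,
          ← Real.rpow_mul hP.le, mul_comm]

end Pool.Agent.Run7.h945.SG
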