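import Pool.Agent.Run7.h125.Sat.Core

/-!
Linear maps into small spaces which do not vanish at the elements of a small set, and powers of
subsets.
-/

set_option autoImplicit false

namespace Pool.Agent.Run7.h945.SG

open Finset

variable {p : ℕ} [hp : Fact p.Prime]

/-- a linear form which vanishes at few elements of `D` -/
lemma exists_form {n : ℕ} (D : Finset (Fin n → ZMod p)) (h0 : (0 : Fin n → ZMod p) ∉ D)
    (hne : D.Nonempty) :
    ∃ a : Fin n → ZMod p, p * (D.filter fun z => ∑ i, a i * z i = 0).card ≤ D.card := by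
  classical
  set T : Finset (Fin n → ZMod p) := univ.filter fun a => a ≠ 0 with hT
  have hTne : T.Nonempty := by
    obtain ⟨d, hd⟩ := hne
    refine ⟨d, ?_⟩
    rw [hT, mem_filter]
    exact ⟨mem_univ _, fun h => h0 (h ▸ hd)⟩
  have hsum : ∑ a ∈ T, p * (D.filter fun z => ∑ i, a i * z i = 0).card ≤ ∑ _a ∈ T, D.card := by
    rw [sum_const, smul_eq_mul]
    calc ∑ a ∈ T, p * (D.filter fun z => ∑ i, a i * z i = 0).card
        = ∑ a ∈ T, ∑ z ∈ D, p * (if ∑ i, a i * z i = 0 then 1 else 0) := by
          refine sum_congr rfl fun a _ => ?_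
          rw [card_filter, mul_sum]
      _ = ∑ z ∈ D, p * (T.filter fun a => ∑ i, a i * z i = 0).card := by
          rw [sum_comm]
          refine sum_congr rfl fun z _ => ?_
          rw [card_filter, mul_sum]
      _ ≤ ∑ _z ∈ D, T.card := by
          refine sum_le_sum fun z hz => ?_
          have h1 := _root_.Run7.h125.Sat.card_vanish (p := p) z (fun h => h0 (h ▸ hz))
          rw [← hT] at h1
          refine le_trans (le_of_eq ?_) h1
          congr 2
          ext a
          simp [hT]
      _ = T.card * D.card := by rw [sum_const, smul_eq_mul, mul_comm]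
  obtain ⟨a, -, ha⟩ := exists_le_of_sum_le hTne hsum
  exact ⟨a, ha⟩

/-- the linear map with given rows -/
def rows {m n : ℕ} (a : Fin m → Fin n → ZMod p) :
    (Fin n → ZMod p) →ₗ[ZMod p] (Fin m → ZMod p) where
  toFun z := fun j => ∑ i, a j i * z i
  map_add' x y := by
    funext j
    simp [mul_add, sum_add_distrib]
  map_smul' t x := by
    funext j
    simp only [Pi.smul_apply, smul_eq_mul, RingHom.id_apply, mul_sum]
    exact sum_congr rfl fun i _ => by ring

lemma exists_rows {n : ℕ} (m : ℕ) : ∀ (D : Finset (Fin n → ZMod p)),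
    (0 : Fin n → ZMod p) ∉ D → D.card < p ^ m →
    ∃ a : Fin m → Fin n → ZMod p, ∀ z ∈ D, rows a z ≠ 0 := by
  classical
  induction m with
  | zero =>
    intro D _ h
    have : D = ∅ := by
      rw [pow_zero] at h
      exact card_eq_zero.1 (by omega)
    subst this
    exact ⟨fun _ _ => 0, fun z hz => absurd hz (notMem_empty _)⟩
  | succ m ih =>
    intro D h0 h
    rcases D.eq_empty_or_nonempty with rfl | hne
    · exact ⟨fun _ _ => 0, fun z hz => absurd hz (notMem_empty _)⟩
    obtain ⟨b, hb⟩ := exists_form D h0 hne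
    have h1 : (D.filter fun z => ∑ i, b i * z i = 0).card < p ^ m := by
      have h2 := lt_of_le_of_lt hb h
      rw [pow_succ, mul_comm (p ^ m)] at h2
      exact lt_of_mul_lt_mul_left h2 (Nat.zero_le _)
    obtain ⟨a, ha⟩ := ih _ (fun h' => h0 (mem_filter.1 h').1) h1
    refine ⟨Fin.cons b a, fun z hz h' => ?_⟩
    have h2 : ∑ i, b i * z i = 0 := by
      have := congrFun h' 0
      simpa [rows] using this
    refine ha z (mem_filter.2 ⟨hz, h2⟩) ?_
    funext j
    have := congrFun h' j.succ
    simpa [rows] using this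

/-- If `D` has less than `p ^ m` elements and does not contain `0`, then some linear map into
`F_p^m` vanishes at no element of `D`. -/
theorem exists_linear {V : Type*} [AddCommGroup V] [Module (ZMod p) V] [Finite V] (D : Finset V)
    (h0 : (0 : V) ∉ D) (m : ℕ) (h : D.card < p ^ m) :
    ∃ φ : V →ₗ[ZMod p] (Fin m → ZMod p), ∀ v ∈ D, φ v ≠ 0 := by
  classical
  have : Module.Finite (ZMod p) V := Module.Finite.of_finite
  let e : V ≃ₗ[ZMod p] (Fin (Module.finrank (ZMod p) V) → ZMod p) :=
    (Module.finBasis (ZMod p) V).equivFun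
  obtain ⟨a, ha⟩ := exists_rows m (D.map e.toEquiv.toEmbedding) (by
    rw [mem_map_equiv]
    intro h'
    apply h0
    have : e.toEquiv.symm 0 = (0 : V) := e.symm.map_zero
    rwa [this] at h') (by rwa [card_map])
  refine ⟨(rows a).comp e.toLinearMap, fun v hv => ha (e v) ?_⟩
  rw [mem_map_equiv]
  have : e.toEquiv.symm (e v) = v := e.symm_apply_apply v
  rwa [this]

/-- a real number all of whose powers are bounded by `C` times the powers of `y` is at most `y` -/
lemma le_of_pow_le {x y C : ℝ} (hx : 0 ≤ x) (hy : 0 < y)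
    (h : ∀ N : ℕ, 1 ≤ N → x ^ N ≤ C * y ^ N) : x ≤ y := by
  have h1 : x / y ≤ 1 := by
    by_contra hx'
    push Not at hx'
    obtain ⟨N, hN⟩ := pow_unbounded_of_one_lt C hx'
    have h1 := h (N + 1) (by omega)
    have h2 : (x / y) ^ N ≤ (x / y) ^ (N + 1) := pow_le_pow_right₀ hx'.le (by omega)
    have h3 : (x / y) ^ (N + 1) ≤ C := by
      rw [div_pow, div_le_iff₀ (pow_pos hy _)]
      exact h1
    linarith
  rwa [div_le_one hy] at h1

/-- the smallest power of `p` which is at least `D` is at most `p D` -/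
lemma exists_dim (p : ℕ) (hp : 1 < p) (D : ℕ) (hD : 1 ≤ D) : ∃ m : ℕ, D ≤ p ^ m ∧ p ^ m ≤ p * D := by
  refine ⟨Nat.clog p D, Nat.le_pow_clog hp D, ?_⟩
  rcases hD.eq_or_lt with h | h
  · rw [← h, Nat.clog_one_right, pow_zero]
    omega
  · have h1 := Nat.pow_pred_clog_lt_self hp h
    have h2 : 0 < Nat.clog p D := Nat.clog_pos hp h
    calc p ^ Nat.clog p D = p * p ^ (Nat.clog p D).pred := by
          rw [← pow_succ']
          congr 1
          exact (Nat.succ_pred_eq_of_pos h2).symm
      _ ≤ p * D := Nat.mul_le_mul_left _ h1.le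

end Pool.Agent.Run7.h945.SG
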