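import Pool.Agent.Run7.h945.SG.Lin
import Pool.Agent.Run7.h125.Sat.Corner

/-!
Corner-free subsets `A` of `V × V`, `V` a finite vector space over `F_2`, and their projections
`X`, `Y`, `S` in the directions of the sides of the corners.
-/

set_option autoImplicit false
set_option linter.unusedSectionVars false

namespace Pool.Agent.Run7.h945.SG

open Finset
open scoped Pointwise

variable {V : Type*} [AddCommGroup V]

/-- no nontrivial corner -/
def NoC (A : Finset (V × V)) : Prop :=
  ∀ x y z : V, z ≠ 0 → ¬ ((x, y) ∈ A ∧ (x, y + z) ∈ A ∧ (x + z, y) ∈ A)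

/-- no nontrivial corner, in terms of the three coordinates `x`, `y`, `x + y` -/
def Tri (A : Finset (V × V)) : Prop :=
  ∀ a ∈ A, ∀ b ∈ A, ∀ c ∈ A, a.1 = b.1 → a.2 = c.2 → b.1 + b.2 = c.1 + c.2 → a = b

lemma tri_iff (A : Finset (V × V)) : NoC A ↔ Tri A := by
  constructor
  · rintro h ⟨a1, a2⟩ ha ⟨b1, b2⟩ hb ⟨c1, c2⟩ hc h1 h2 h3
    simp only at h1 h2 h3
    subst h1 h2
    by_contra hne
    refine h a1 a2 (b2 - a2) ?_ ⟨ha, ?_, ?_⟩
    · intro h0
      apply hne
      rw [sub_eq_zero.1 h0]
    · rwa [add_sub_cancel]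
    · have : a1 + (b2 - a2) = c1 := by
        rw [add_sub, h3, add_sub_cancel_right]
      rwa [this]
  · rintro h x y z hz ⟨h1, h2, h3⟩
    have := h _ h1 _ h2 _ h3 rfl rfl (by simp only; abel)
    apply hz
    have h4 := congrArg Prod.snd this
    simp only at h4
    exact (add_eq_left.1 h4.symm)

lemma Tri.mono {A B : Finset (V × V)} (h : Tri B) (hAB : A ⊆ B) : Tri A :=
  fun a ha b hb c hc => h a (hAB ha) b (hAB hb) c (hAB hc)

variable [DecidableEq V]

/-- the projection to the first coordinate -/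
def px (A : Finset (V × V)) : Finset V := A.image Prod.fst
/-- the projection to the second coordinate -/
def py (A : Finset (V × V)) : Finset V := A.image Prod.snd
/-- the projection to the sum of the coordinates -/
def ps (A : Finset (V × V)) : Finset V := A.image fun q => q.1 + q.2

lemma px_mono {A B : Finset (V × V)} (h : A ⊆ B) : px A ⊆ px B := image_subset_image h
lemma py_mono {A B : Finset (V × V)} (h : A ⊆ B) : py A ⊆ py B := image_subset_image h
lemma ps_mono {A B : Finset (V × V)} (h : A ⊆ B) : ps A ⊆ ps B := image_subset_image h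

lemma mem_px {A : Finset (V × V)} {q : V × V} (h : q ∈ A) : q.1 ∈ px A := mem_image_of_mem _ h
lemma mem_py {A : Finset (V × V)} {q : V × V} (h : q ∈ A) : q.2 ∈ py A := mem_image_of_mem _ h
lemma mem_ps {A : Finset (V × V)} {q : V × V} (h : q ∈ A) : q.1 + q.2 ∈ ps A :=
  mem_image_of_mem (fun q : V × V => q.1 + q.2) h

section char2

variable [Module (ZMod 2) V]

lemma two (x : V) : x + x = 0 := by
  have h : (2 : ZMod 2) • x = x + x := two_smul _ x
  rw [← h]
  have : (2 : ZMod 2) = 0 := rfl
  rw [this, zero_smul]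

lemma neg2 (x : V) : -x = x := neg_eq_of_add_eq_zero_left (two x)

lemma add_eq_zero2 {x y : V} (h : x + y = 0) : x = y := by
  rw [add_eq_zero_iff_eq_neg, neg2] at h
  exact h

/-- cyclic rotation of the three coordinates -/
def rot : V × V ≃ V × V where
  toFun q := (q.2, q.1 + q.2)
  invFun q := (q.1 + q.2, q.1)
  left_inv q := by
    refine Prod.ext ?_ rfl
    change q.2 + (q.1 + q.2) = q.1
    rw [add_comm q.1, ← add_assoc, two, zero_add]
  right_inv q := by
    refine Prod.ext rfl ?_
    change q.1 + q.2 + q.1 = q.2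
    rw [add_comm q.1, add_assoc, two, add_zero]

lemma rot_sum (q : V × V) : (rot q).1 + (rot q).2 = q.1 := by
  change q.2 + (q.1 + q.2) = q.1
  rw [add_comm q.1, ← add_assoc, two, zero_add]

lemma Tri.rot {A : Finset (V × V)} (h : Tri A) : Tri (A.map (rot (V := V)).toEmbedding) := by
  intro a' ha b' hb c' hc
  rw [mem_map] at ha hb hc
  obtain ⟨a, ha, rfl⟩ := ha
  obtain ⟨b, hb, rfl⟩ := hb
  obtain ⟨c, hc, rfl⟩ := hc
  simp only [Equiv.coe_toEmbedding]
  intro h1 h2 h3
  rw [rot_sum, rot_sum] at h3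
  have h1' : a.2 = b.2 := h1
  have h2' : a.1 + a.2 = c.1 + c.2 := h2
  have h4 : b = c := h b hb c hc a ha h3 h1'.symm h2'.symm
  have h5 : a = b := by
    rw [← h4, h1'] at h2'
    exact Prod.ext (add_right_cancel h2') h1'
  rw [h5]

lemma px_rot (A : Finset (V × V)) : px (A.map (rot (V := V)).toEmbedding) = py A := by
  rw [px, py, map_eq_image, image_image]
  rfl

lemma py_rot (A : Finset (V × V)) : py (A.map (rot (V := V)).toEmbedding) = ps A := by
  rw [py, ps, map_eq_image, image_image]
  rfl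

lemma ps_rot (A : Finset (V × V)) : ps (A.map (rot (V := V)).toEmbedding) = px A := by
  rw [px, ps, map_eq_image, image_image]
  refine image_congr fun q _ => ?_
  exact rot_sum q

end char2

section family

variable {ι : Type*} [Fintype ι] [DecidableEq ι]

/-- the product of a family of subsets of `V × V`, in `V^ι × V^ι` -/
def fam (A : ι → Finset (V × V)) : Finset ((ι → V) × (ι → V)) :=
  (Fintype.piFinset A).map (Equiv.arrowProdEquivProdArrow ι (fun _ => V) (fun _ => V)).toEmbedding

lemma mem_fam {A : ι → Finset (V × V)} {q : (ι → V) × (ι → V)} :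
    q ∈ fam A ↔ ∀ i, (q.1 i, q.2 i) ∈ A i := by
  rw [fam, mem_map_equiv, Fintype.mem_piFinset]
  rfl

lemma card_fam (A : ι → Finset (V × V)) : (fam A).card = ∏ i, (A i).card := by
  rw [fam, card_map, Fintype.card_piFinset]

lemma Tri.fam {A : ι → Finset (V × V)} (h : ∀ i, Tri (A i)) : Tri (fam A) := by
  intro a ha b hb c hc h1 h2 h3
  rw [mem_fam] at ha hb hc
  have h4 : ∀ i, (a.1 i, a.2 i) = (b.1 i, b.2 i) := fun i =>
    h i _ (ha i) _ (hb i) _ (hc i) (congrFun h1 i) (congrFun h2 i) (congrFun h3 i)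
  exact Prod.ext (funext fun i => congrArg Prod.fst (h4 i))
    (funext fun i => congrArg Prod.snd (h4 i))

lemma image_fam {W : Type*} [DecidableEq W] (A : ι → Finset (V × V)) (f : V × V → W) :
    ((fam A).image fun q => fun i => f (q.1 i, q.2 i)) =
      Fintype.piFinset fun i => (A i).image f := by
  ext x
  rw [mem_image, Fintype.mem_piFinset]
  constructor
  · rintro ⟨q, hq, rfl⟩ i
    exact mem_image_of_mem f (mem_fam.1 hq i)
  · intro h
    choose g hg using fun i => mem_image.1 (h i)
    refine ⟨(fun i => (g i).1, fun i => (g i).2), mem_fam.2 fun i => (hg i).1, ?_⟩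
    funext i
    exact (hg i).2

lemma px_fam (A : ι → Finset (V × V)) : px (fam A) = Fintype.piFinset fun i => px (A i) :=
  image_fam A Prod.fst

lemma py_fam (A : ι → Finset (V × V)) : py (fam A) = Fintype.piFinset fun i => py (A i) :=
  image_fam A Prod.snd

lemma ps_fam (A : ι → Finset (V × V)) : ps (fam A) = Fintype.piFinset fun i => ps (A i) :=
  image_fam A fun q => q.1 + q.2

lemma card_add_pi (X : ι → Finset V) :
    (Fintype.piFinset X + Fintype.piFinset X : Finset (ι → V)).card = ∏ i, (X i + X i).card := by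
  have h := Fintype.piFinset_add X X
  rw [← Fintype.card_piFinset]
  exact (congrArg Finset.card h).symm

end family

section transfer

variable [Module (ZMod 2) V]

/-- A corner-free set whose projections have few sums is the isomorphic image of a corner-free
subset of a small space. -/
theorem transfer [Finite V] {A : Finset (V × V)} (hA : Tri A) (m : ℕ)
    (h : ((px A + px A) ∪ (py A + py A) ∪ (ps A + ps A)).card ≤ 2 ^ m) :
    A.card ≤ _root_.Run7.h125.Sat.Corner.rc m := by
  rcases A.eq_empty_or_nonempty with rfl | ⟨a, ha⟩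
  · simp
  set U : Finset V := (px A + px A) ∪ (py A + py A) ∪ (ps A + ps A) with hU
  have h0 : (0 : V) ∈ U := by
    rw [hU, mem_union, mem_union]
    left; left
    rw [← two a.1]
    exact add_mem_add (mem_px ha) (mem_px ha)
  obtain ⟨φ, hφ⟩ := exists_linear (p := 2) (U.erase 0) (notMem_erase 0 U) m
    (lt_of_lt_of_le (card_erase_lt_of_mem h0) h)
  have key : ∀ x y : V, x + y ∈ U → φ x = φ y → x = y := by
    intro x y hxy hf
    by_contra hne
    refine hφ (x + y) (mem_erase.2 ⟨fun h' => hne (add_eq_zero2 h'), hxy⟩) ?_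
    rw [map_add, hf, two]
  have kx : ∀ a ∈ A, ∀ b ∈ A, φ a.1 = φ b.1 → a.1 = b.1 := fun a ha b hb =>
    key _ _ (by
      rw [hU, mem_union, mem_union]
      exact Or.inl (Or.inl (add_mem_add (mem_px ha) (mem_px hb))))
  have ky : ∀ a ∈ A, ∀ b ∈ A, φ a.2 = φ b.2 → a.2 = b.2 := fun a ha b hb =>
    key _ _ (by
      rw [hU, mem_union, mem_union]
      exact Or.inl (Or.inr (add_mem_add (mem_py ha) (mem_py hb))))
  have ks : ∀ a ∈ A, ∀ b ∈ A, φ (a.1 + a.2) = φ (b.1 + b.2) → a.1 + a.2 = b.1 + b.2 :=
    fun a ha b hb => key _ _ (by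
      rw [hU, mem_union, mem_union]
      exact Or.inr (add_mem_add (mem_ps ha) (mem_ps hb)))
  set f : V × V → (Fin m → ZMod 2) × (Fin m → ZMod 2) := fun q => (φ q.1, φ q.2) with hf
  have hinj : Set.InjOn f A := by
    intro a ha b hb hab
    exact Prod.ext (kx a ha b hb (congrArg Prod.fst hab)) (ky a ha b hb (congrArg Prod.snd hab))
  rw [← card_image_of_injOn hinj]
  apply _root_.Run7.h125.Sat.Corner.le_rc
  refine (tri_iff (A.image f)).2 ?_
  intro a' ha' b' hb' c' hc' h1 h2 h3
  obtain ⟨a, ha, rfl⟩ := mem_image.1 ha'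
  obtain ⟨b, hb, rfl⟩ := mem_image.1 hb'
  obtain ⟨c, hc, rfl⟩ := mem_image.1 hc'
  simp only [hf] at h1 h2 h3
  rw [← map_add, ← map_add] at h3
  rw [hA a ha b hb c hc (kx a ha b hb h1) (ky a ha c hc h2) (ks b hb c hc h3)]

end transfer

end Pool.Agent.Run7.h945.SG
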