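import Pool.Agent.Run7.h945.SG.Sparse

/-!
# Corner-free sets in `(F_2^n)^2`: the dense and the sparse question are equivalent

A corner `(x, y), (x, y + z), (x + z, y)` has one side in each of the three directions of the
projections `x`, `y` and `s = x + y`. Let `X`, `Y`, `S` be the images of a corner-free set `A` under
these projections; so `|A| ≤ |X| |Y|`, `|X| |S|`, `|Y| |S|`, and `|A|^3 ≤ (|X| |Y| |S|)^2`. The number
`n` is arbitrary and does not occur in the bounds below.

* The power-saving bound `|A| ≤ C 4^((1-c)n)` is equivalent, with the same `c`, to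
  `|A|^3 ≤ (|X + X| |Y + Y| |S + S|)^(2(1-c))` for all corner-free sets.
* It implies `|A|^3 ≤ (|X| |Y| |S|)^(2(1-c/97))`, a saving for all sets `X`, `Y`, `S`, however sparse.
* So Q1 is equivalent to the sparse question: is `|A| ≤ C N^(2-δ)` for the corner-free sets whose
  three projections have at most `N` elements?

Proof. (1) A linear map `φ` which is injective on `X`, `Y` and `S` maps `A` to a corner-free set of the
same size; if `X + X`, `Y + Y`, `S + S` have together at most `2^m` elements there is such a map to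
`F_2^m`. This is applied to the products of many copies of `A` with the three roles of `x`, `y`, `s`
permuted cyclically, which makes the three numbers equal and removes the constants. (2) The graph form
of the Balog-Szemeredi-Gowers theorem, applied three times, once for every direction, finds a part of
`A` whose projections have few sums and which is not much smaller than `A`.
-/

set_option autoImplicit false

namespace Pool.Agent.Results.MP_db4732_co.ProjectionBounds

open Finset
open scoped Pointwise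

/-- `(F_2^n)^2` -/
abbrev Q (n : ℕ) : Type := (Fin n → ZMod 2) × (Fin n → ZMod 2)

/-- `A ⊆ (F_2^n)^2` contains no nontrivial corner `(x, y), (x, y + z), (x + z, y)`, `z ≠ 0`. -/
def CornerFree {n : ℕ} (A : Finset (Q n)) : Prop :=
  ∀ x y z : Fin n → ZMod 2, z ≠ 0 → ¬ ((x, y) ∈ A ∧ (x, y + z) ∈ A ∧ (x + z, y) ∈ A)

/-- the first coordinates of the points of `A` -/
def X {n : ℕ} (A : Finset (Q n)) : Finset (Fin n → ZMod 2) := A.image fun q => q.1

/-- the second coordinates of the points of `A` -/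
def Y {n : ℕ} (A : Finset (Q n)) : Finset (Fin n → ZMod 2) := A.image fun q => q.2

/-- the sums of the coordinates of the points of `A` -/
def S {n : ℕ} (A : Finset (Q n)) : Finset (Fin n → ZMod 2) := A.image fun q => q.1 + q.2

/-- The power-saving bound with saving `c` for all corner-free sets. -/
def Saving (c : ℝ) : Prop :=
  ∃ C : ℝ, 0 < C ∧ ∀ n : ℕ, 1 ≤ n → ∀ A : Finset (Q n), CornerFree A →
    (#A : ℝ) ≤ C * (4 : ℝ) ^ ((1 - c) * (n : ℝ))

/-- The positive answer to Q1. -/
def PowerSaving : Prop := ∃ c : ℝ, 0 < c ∧ Saving c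

/-- The bound by the numbers of sums of the projections, for all `n` and all corner-free sets. -/
def SumsetBound (c : ℝ) : Prop :=
  ∀ (n : ℕ) (A : Finset (Q n)), CornerFree A →
    (#A : ℝ) ^ 3 ≤ ((#(X A + X A) * #(Y A + Y A) * #(S A + S A) : ℕ) : ℝ) ^ (2 * (1 - c))

/-- The same up to a constant factor. -/
def WeakSumsetBound (c : ℝ) : Prop :=
  ∃ C : ℝ, 0 < C ∧ ∀ (n : ℕ) (A : Finset (Q n)), CornerFree A →
    (#A : ℝ) ^ 3 ≤ C * ((#(X A + X A) * #(Y A + Y A) * #(S A + S A) : ℕ) : ℝ) ^ (2 * (1 - c))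

/-- The bound by the sizes of the projections, for all `n` and all corner-free sets. -/
def ProjectionBound (c : ℝ) : Prop :=
  ∀ (n : ℕ) (A : Finset (Q n)), CornerFree A →
    (#A : ℝ) ^ 3 ≤ ((#(X A) * #(Y A) * #(S A) : ℕ) : ℝ) ^ (2 * (1 - c))

/-- The sparse question: a bound for the corner-free sets (in any dimension `n`) whose three
projections have at most `N` elements. -/
def SparseBound : Prop :=
  ∃ C δ : ℝ, 0 < C ∧ 0 < δ ∧ ∀ (n N : ℕ) (A : Finset (Q n)), CornerFree A →
    #(X A) ≤ N → #(Y A) ≤ N → #(S A) ≤ N → (#A : ℝ) ≤ C * (N : ℝ) ^ (2 - δ)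

open Pool.Agent.Run7.h945.SG Run7.h125.Sat Run7.h125.Sat.Corner

lemma clean {c : ℝ} (h : Saving c) (m : ℕ) : (rc m : ℝ) ≤ ((4 : ℝ) ^ (1 - c)) ^ m := by
  obtain ⟨C, -, hC⟩ := h
  rcases Nat.eq_zero_or_pos m with rfl | hm
  · have := r_le_pow (p := 2) Corner.v 0
    rw [rc_eq]
    simp only [pow_zero] at this ⊢
    exact_mod_cast this
  rw [rc_eq]
  refine r_le_of_const (p := 2) Corner.v _ C (by positivity) ?_ m hm
  intro n hn
  obtain ⟨A, hA, hc⟩ := exists_rc n
  rw [← rc_eq, ← hc, base_pow]
  exact hC n hn A hA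

lemma tri {n : ℕ} {A : Finset (Q n)} (h : CornerFree A) : Tri A := (tri_iff A).1 h

lemma sumset_of_saving {c : ℝ} (hc : c ≤ 1) (h : Saving c) : SumsetBound c := fun n A hA => by
  have h1 := sumset_bound hc (clean h) (tri hA)
  simpa [P, X, Y, S, px, py, ps] using h1

lemma projection_of_saving {c : ℝ} (hc0 : 0 ≤ c) (hc : c ≤ 1) (h : Saving c) :
    ProjectionBound (c / 97) := fun n A hA => by
  have h1 := sparse_bound hc0 hc (clean h) (tri hA)
  simpa [R, X, Y, S, px, py, ps] using h1

lemma card_le_two (n : ℕ) (B : Finset (Fin n → ZMod 2)) : #B ≤ 2 ^ n := by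
  have h := card_le_univ B
  rwa [Fintype.card_fun, ZMod.card, Fintype.card_fin] at h

lemma saving_of_weak {c : ℝ} (hc : c ≤ 1) (h : WeakSumsetBound c) : Saving c := by
  obtain ⟨C, hC0, hC⟩ := h
  refine ⟨C + 1, by linarith, fun n _ A hA => ?_⟩
  have h1 := hC n A hA
  have h2 : ((#(X A + X A) * #(Y A + Y A) * #(S A + S A) : ℕ) : ℝ) ≤ ((2 : ℝ) ^ n) ^ 3 := by
    have : #(X A + X A) * #(Y A + Y A) * #(S A + S A) ≤ 2 ^ n * 2 ^ n * 2 ^ n :=
      Nat.mul_le_mul (Nat.mul_le_mul (card_le_two n _) (card_le_two n _)) (card_le_two n _)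
    calc ((#(X A + X A) * #(Y A + Y A) * #(S A + S A) : ℕ) : ℝ)
        ≤ ((2 ^ n * 2 ^ n * 2 ^ n : ℕ) : ℝ) := by exact_mod_cast this
      _ = _ := by push_cast; ring
  have h3 : (((2 : ℝ) ^ n) ^ 3) ^ (2 * (1 - c)) = ((4 : ℝ) ^ ((1 - c) * (n : ℝ))) ^ 3 := by
    rw [show (4 : ℝ) = 2 ^ (2 : ℝ) by norm_num, ← Real.rpow_natCast, ← Real.rpow_natCast,
      ← Real.rpow_natCast, ← Real.rpow_mul (by norm_num), ← Real.rpow_mul (by norm_num),
      ← Real.rpow_mul (by norm_num), ← Real.rpow_mul (by norm_num)]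
    congr 1
    ring
  have h4 : (#A : ℝ) ^ 3 ≤ ((C + 1) * (4 : ℝ) ^ ((1 - c) * (n : ℝ))) ^ 3 := by
    calc (#A : ℝ) ^ 3 ≤ C * ((#(X A + X A) * #(Y A + Y A) * #(S A + S A) : ℕ) : ℝ) ^
          (2 * (1 - c)) := h1
      _ ≤ C * (((2 : ℝ) ^ n) ^ 3) ^ (2 * (1 - c)) := by
          apply mul_le_mul_of_nonneg_left _ hC0.le
          exact Real.rpow_le_rpow (Nat.cast_nonneg _) h2 (by linarith)
      _ = C * ((4 : ℝ) ^ ((1 - c) * (n : ℝ))) ^ 3 := by rw [h3]
      _ ≤ (C + 1) ^ 3 * ((4 : ℝ) ^ ((1 - c) * (n : ℝ))) ^ 3 := by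
          apply mul_le_mul_of_nonneg_right _ (by positivity)
          nlinarith [pow_pos hC0 2, pow_pos hC0 3]
      _ = _ := by ring
  exact le_of_pow_le_pow_left₀ three_ne_zero (by positivity) h4

lemma card_pos_proj {n : ℕ} {A : Finset (Q n)} (h : A.Nonempty) :
    1 ≤ #(X A) * #(Y A) * #(S A) ∧ 1 ≤ #(X A + X A) * #(Y A + Y A) * #(S A + S A) := by
  have h1 : (X A).Nonempty := h.image _
  have h2 : (Y A).Nonempty := h.image _
  have h3 : (S A).Nonempty := h.image _
  exact ⟨Nat.mul_pos (Nat.mul_pos h1.card_pos h2.card_pos) h3.card_pos,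
    Nat.mul_pos (Nat.mul_pos (h1.add h1).card_pos (h2.add h2).card_pos) (h3.add h3).card_pos⟩

lemma sumset_of_projection {c : ℝ} (hc : c ≤ 1) (h : ProjectionBound c) : SumsetBound c := by
  intro n A hA
  refine (h n A hA).trans ?_
  apply Real.rpow_le_rpow (Nat.cast_nonneg _) _ (by linarith)
  have h1 : ∀ B : Finset (Fin n → ZMod 2), #B ≤ #(B + B) := fun B => by
    rcases B.eq_empty_or_nonempty with rfl | hB
    · simp
    · exact card_le_card_add_right hB
  exact_mod_cast Nat.mul_le_mul (Nat.mul_le_mul (h1 _) (h1 _)) (h1 _)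

lemma projection_mono {c d : ℝ} (hdc : d ≤ c) (h : ProjectionBound c) : ProjectionBound d := by
  intro n A hA
  rcases A.eq_empty_or_nonempty with rfl | hne
  · rw [card_empty, Nat.cast_zero, zero_pow three_ne_zero]
    positivity
  refine (h n A hA).trans ?_
  apply Real.rpow_le_rpow_of_exponent_le
  · exact_mod_cast (card_pos_proj hne).1
  · linarith

lemma sumset_mono {c d : ℝ} (hdc : d ≤ c) (h : SumsetBound c) : SumsetBound d := by
  intro n A hA
  rcases A.eq_empty_or_nonempty with rfl | hne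
  · rw [card_empty, Nat.cast_zero, zero_pow three_ne_zero]
    positivity
  refine (h n A hA).trans ?_
  apply Real.rpow_le_rpow_of_exponent_le
  · exact_mod_cast (card_pos_proj hne).2
  · linarith

lemma saving_mono {c d : ℝ} (hdc : d ≤ c) (h : Saving c) : Saving d := by
  obtain ⟨C, hC0, hC⟩ := h
  refine ⟨C, hC0, fun n hn A hA => (hC n hn A hA).trans ?_⟩
  apply mul_le_mul_of_nonneg_left _ hC0.le
  apply Real.rpow_le_rpow_of_exponent_le (by norm_num)
  have : (0 : ℝ) ≤ n := Nat.cast_nonneg n
  nlinarith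

/-- **Theorem.**
(1) For `0 < c ≤ 1` the following are equivalent: the power-saving bound with saving `c` for all
corner-free sets; the bound `|A|^3 ≤ (|X + X| |Y + Y| |S + S|)^(2(1-c))` for all corner-free sets; the
same up to a constant factor.
(2) The power-saving bound with saving `c` implies `|A|^3 ≤ (|X| |Y| |S|)^(2(1-c/97))` for all
corner-free sets.
(3) Conversely `|A|^3 ≤ (|X| |Y| |S|)^(2(1-c))` implies the power-saving bound with saving `c`.
(4) Q1 has a positive answer if and only if there are `C` and `δ > 0` such that `|A| ≤ C N^(2-δ)` for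
all `n`, all `N` and all corner-free `A ⊆ (F_2^n)^2` whose three projections have at most `N`
elements. -/
theorem result :
    (∀ c : ℝ, 0 < c → c ≤ 1 → List.TFAE [Saving c, SumsetBound c, WeakSumsetBound c]) ∧
    (∀ c : ℝ, 0 < c → c ≤ 1 → Saving c → ProjectionBound (c / 97)) ∧
    (∀ c : ℝ, 0 < c → c ≤ 1 → ProjectionBound c → Saving c) ∧
    List.TFAE [PowerSaving, ∃ c : ℝ, 0 < c ∧ SumsetBound c, ∃ c : ℝ, 0 < c ∧ ProjectionBound c,
      SparseBound] := by
  have hweak : ∀ c : ℝ, SumsetBound c → WeakSumsetBound c := fun c h =>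
    ⟨1, one_pos, fun n A hA => by rw [one_mul]; exact h n A hA⟩
  have hback : ∀ c : ℝ, c ≤ 1 → ProjectionBound c → Saving c := fun c hc h =>
    saving_of_weak hc (hweak c (sumset_of_projection hc h))
  refine ⟨?_, fun c hc0 hc => projection_of_saving hc0.le hc, fun c _ hc => hback c hc, ?_⟩
  · intro c hc0 hc
    tfae_have 1 → 2 := sumset_of_saving hc
    tfae_have 2 → 3 := hweak c
    tfae_have 3 → 1 := saving_of_weak hc
    tfae_finish
  · tfae_have 1 → 3 := by
      rintro ⟨c, hc, h⟩
      refine ⟨min c 1 / 97, by positivity, ?_⟩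
      exact projection_of_saving (by positivity) (min_le_right _ _)
        (saving_mono (min_le_left _ _) h)
    tfae_have 3 → 4 := by
      rintro ⟨c, hc, h⟩
      have hd0 : 0 < min c 1 := by positivity
      have hd1 : min c 1 ≤ 1 := min_le_right _ _
      refine ⟨1, 2 * min c 1, one_pos, by positivity, fun n N A hA h1 h2 h3 => ?_⟩
      rw [one_mul]
      have h4 := projection_mono (min_le_left c 1) h n A hA
      have h5 : ((#(X A) * #(Y A) * #(S A) : ℕ) : ℝ) ≤ (N : ℝ) ^ 3 := by
        have : #(X A) * #(Y A) * #(S A) ≤ N ^ 3 := by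
          calc #(X A) * #(Y A) * #(S A) ≤ N * N * N :=
                Nat.mul_le_mul (Nat.mul_le_mul h1 h2) h3
            _ = N ^ 3 := by ring
        exact_mod_cast this
      have h6 : (#A : ℝ) ^ 3 ≤ ((N : ℝ) ^ (2 - 2 * min c 1)) ^ 3 := by
        calc (#A : ℝ) ^ 3 ≤ _ := h4
          _ ≤ ((N : ℝ) ^ 3) ^ (2 * (1 - min c 1)) :=
              Real.rpow_le_rpow (Nat.cast_nonneg _) h5 (by linarith)
          _ = _ := by
              rw [← Real.rpow_natCast, ← Real.rpow_natCast, ← Real.rpow_mul (Nat.cast_nonneg _),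
                ← Real.rpow_mul (Nat.cast_nonneg _)]
              congr 1
              ring
      exact le_of_pow_le_pow_left₀ three_ne_zero (by positivity) h6
    tfae_have 4 → 1 := by
      rintro ⟨C, δ, hC, hδ, h⟩
      refine ⟨δ / 2, by positivity, C, hC, fun n _ A hA => ?_⟩
      refine (h n (2 ^ n) A hA (card_le_two n _) (card_le_two n _) (card_le_two n _)).trans
        (le_of_eq ?_)
      congr 1
      rw [show (4 : ℝ) = 2 ^ (2 : ℝ) by norm_num, Nat.cast_pow, Nat.cast_ofNat,
        ← Real.rpow_natCast, ← Real.rpow_mul (by norm_num), ← Real.rpow_mul (by norm_num)]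
      congr 1
      ring
    tfae_have 3 → 2 := by
      rintro ⟨c, hc, h⟩
      refine ⟨min c 1, by positivity, ?_⟩
      exact sumset_of_projection (min_le_right _ _) (projection_mono (min_le_left _ _) h)
    tfae_have 2 → 1 := by
      rintro ⟨c, hc, h⟩
      refine ⟨min c 1, by positivity, ?_⟩
      exact saving_of_weak (min_le_right _ _) (hweak _ (sumset_mono (min_le_left _ _) h))
    tfae_finish

end Pool.Agent.Results.MP_db4732_co.ProjectionBounds
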