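import Pool.Agent.Run7.h945.SG.Lin

/-!
Linear maps into small spaces which vanish at few members of a family of nonzero vectors.
-/

set_option autoImplicit false

namespace Pool.Agent.Run7.h945.SG

open Finset

variable {p : ℕ} [hp : Fact p.Prime]

/-- a linear form which vanishes at few members of a family of nonzero vectors -/
lemma exists_form_fam {ι : Type*} [DecidableEq ι] {n : ℕ} (I : Finset ι) (v : ι → Fin n → ZMod p)
    (h0 : ∀ i ∈ I, v i ≠ 0) :
    ∃ a : Fin n → ZMod p, p * (I.filter fun i => ∑ j, a j * v i j = 0).card ≤ I.card := by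
  classical
  rcases I.eq_empty_or_nonempty with rfl | ⟨i₀, hi₀⟩
  · exact ⟨0, by simp⟩
  set T : Finset (Fin n → ZMod p) := univ.filter fun a => a ≠ 0 with hT
  have hTne : T.Nonempty := ⟨v i₀, by
    rw [hT, mem_filter]
    exact ⟨mem_univ _, h0 _ hi₀⟩⟩
  have hsum : ∑ a ∈ T, p * (I.filter fun i => ∑ j, a j * v i j = 0).card ≤ ∑ _a ∈ T, I.card := by
    rw [sum_const, smul_eq_mul]
    calc ∑ a ∈ T, p * (I.filter fun i => ∑ j, a j * v i j = 0).card
        = ∑ a ∈ T, ∑ i ∈ I, p * (if ∑ j, a j * v i j = 0 then 1 else 0) := by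
          refine sum_congr rfl fun a _ => ?_
          rw [card_filter, mul_sum]
      _ = ∑ i ∈ I, p * (T.filter fun a => ∑ j, a j * v i j = 0).card := by
          rw [sum_comm]
          refine sum_congr rfl fun i _ => ?_
          rw [card_filter, mul_sum]
      _ ≤ ∑ _i ∈ I, T.card := by
          refine sum_le_sum fun i hi => ?_
          have h1 := _root_.Run7.h125.Sat.card_vanish (p := p) (v i) (h0 i hi)
          rw [← hT] at h1
          refine le_trans (le_of_eq ?_) h1
          congr 2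
          ext a
          simp [hT]
      _ = T.card * I.card := by rw [sum_const, smul_eq_mul, mul_comm]
  obtain ⟨a, -, ha⟩ := exists_le_of_sum_le hTne hsum
  exact ⟨a, ha⟩

lemma exists_rows_fam {ι : Type*} [DecidableEq ι] {n : ℕ} (m : ℕ) :
    ∀ (I : Finset ι) (v : ι → Fin n → ZMod p), (∀ i ∈ I, v i ≠ 0) →
    ∃ a : Fin m → Fin n → ZMod p, p ^ m * (I.filter fun i => rows a (v i) = 0).card ≤ I.card := by
  classical
  induction m with
  | zero =>
    intro I v _
    exact ⟨fun _ _ => 0, by rw [pow_zero, one_mul]; exact card_le_card (filter_subset _ _)⟩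
  | succ m ih =>
    intro I v h0
    obtain ⟨b, hb⟩ := exists_form_fam I v h0
    obtain ⟨a, ha⟩ := ih (I.filter fun i => ∑ j, b j * v i j = 0) v
      fun i hi => h0 i (mem_filter.1 hi).1
    refine ⟨Fin.cons b a, ?_⟩
    have h1 : (I.filter fun i => rows (Fin.cons b a : Fin (m + 1) → Fin n → ZMod p) (v i) = 0) ⊆
        (I.filter fun i => ∑ j, b j * v i j = 0).filter fun i => rows a (v i) = 0 := by
      intro i hi
      rw [mem_filter] at hi
      rw [mem_filter, mem_filter]
      refine ⟨⟨hi.1, ?_⟩, ?_⟩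
      · have := congrFun hi.2 0
        simpa [rows] using this
      · funext j
        have := congrFun hi.2 j.succ
        simpa [rows] using this
    calc p ^ (m + 1) * _ ≤ p ^ (m + 1) * ((I.filter fun i => ∑ j, b j * v i j = 0).filter
          fun i => rows a (v i) = 0).card := Nat.mul_le_mul_left _ (card_le_card h1)
      _ = p * (p ^ m * ((I.filter fun i => ∑ j, b j * v i j = 0).filter
          fun i => rows a (v i) = 0).card) := by ring
      _ ≤ p * (I.filter fun i => ∑ j, b j * v i j = 0).card := Nat.mul_le_mul_left _ ha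
      _ ≤ I.card := hb

/-- **Sampling.** For sets `T i` of at most `t` nonzero vectors, `i` in `I`, some linear map into
`F_p^m` vanishes somewhere on `T i` for at most `|I| t / p^m` of the `i`. -/
theorem sample {V : Type*} [AddCommGroup V] [Module (ZMod p) V] [Finite V] {ι : Type*}
    (I : Finset ι) (T : ι → Finset V) (h0 : ∀ i ∈ I, (0 : V) ∉ T i) (t : ℕ)
    (ht : ∀ i ∈ I, (T i).card ≤ t) (m : ℕ) :
    ∃ φ : V →ₗ[ZMod p] (Fin m → ZMod p), ∃ J ⊆ I,
      p ^ m * (I.card - J.card) ≤ I.card * t ∧ ∀ i ∈ J, ∀ v ∈ T i, φ v ≠ 0 := by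
  classical
  have : Module.Finite (ZMod p) V := Module.Finite.of_finite
  let e : V ≃ₗ[ZMod p] (Fin (Module.finrank (ZMod p) V) → ZMod p) :=
    (Module.finBasis (ZMod p) V).equivFun
  obtain ⟨a, ha⟩ := exists_rows_fam (p := p) m (I.sigma T) (fun x => e x.2) (by
    intro x hx
    rw [mem_sigma] at hx
    intro h
    apply h0 x.1 hx.1
    rw [← (LinearEquiv.map_eq_zero_iff e).1 h]
    exact hx.2)
  set F := (I.sigma T).filter fun x => rows a (e x.2) = 0 with hF
  refine ⟨(rows a).comp e.toLinearMap, I.filter fun i => ∀ v ∈ T i, rows a (e v) ≠ 0,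
    filter_subset _ _, ?_, ?_⟩
  · have h1 : (I.filter fun i => ¬ ∀ v ∈ T i, rows a (e v) ≠ 0) ⊆ F.image Sigma.fst := by
      intro i hi
      rw [mem_filter] at hi
      obtain ⟨hi, hi'⟩ := hi
      push Not at hi'
      obtain ⟨v, hv, hv'⟩ := hi'
      exact mem_image.2 ⟨⟨i, v⟩, mem_filter.2 ⟨mem_sigma.2 ⟨hi, hv⟩, hv'⟩, rfl⟩
    have h2 := card_filter_add_card_filter_not (s := I) (fun i => ∀ v ∈ T i, rows a (e v) ≠ 0)
    have h3 : (I.filter fun i => ¬ ∀ v ∈ T i, rows a (e v) ≠ 0).card ≤ F.card :=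
      (card_le_card h1).trans card_image_le
    calc p ^ m * (I.card - _) ≤ p ^ m * F.card := Nat.mul_le_mul_left _ (by omega)
      _ ≤ (I.sigma T).card := ha
      _ = ∑ i ∈ I, (T i).card := card_sigma _ _
      _ ≤ I.card * t := sum_le_card_nsmul _ _ _ ht
  · intro i hi v hv
    exact (mem_filter.1 hi).2 v hv

/-- at least half of the sets are missed -/
theorem sample_half {V : Type*} [AddCommGroup V] [Module (ZMod p) V] [Finite V] {ι : Type*}
    (I : Finset ι) (T : ι → Finset V) (h0 : ∀ i ∈ I, (0 : V) ∉ T i) (t : ℕ)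
    (ht : ∀ i ∈ I, (T i).card ≤ t) {m : ℕ} (hm : 2 * t ≤ p ^ m) :
    ∃ φ : V →ₗ[ZMod p] (Fin m → ZMod p), ∃ J ⊆ I,
      I.card ≤ 2 * J.card ∧ ∀ i ∈ J, ∀ v ∈ T i, φ v ≠ 0 := by
  obtain ⟨φ, J, hJ, h1, h2⟩ := sample (p := p) I T h0 t ht m
  refine ⟨φ, J, hJ, ?_, h2⟩
  have h3 := card_le_card hJ
  rcases Nat.eq_zero_or_pos t with rfl | ht'
  · rw [mul_zero, Nat.le_zero, mul_eq_zero] at h1
    have : 0 < p ^ m := Nat.pow_pos hp.out.pos
    omega
  · have h4 : 2 * t * (I.card - J.card) ≤ I.card * t := (Nat.mul_le_mul_right _ hm).trans h1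
    have h5 : 2 * (I.card - J.card) ≤ I.card := by
      have : t * (2 * (I.card - J.card)) ≤ t * I.card := by
        calc _ = 2 * t * (I.card - J.card) := by ring
          _ ≤ I.card * t := h4
          _ = _ := by ring
      exact Nat.le_of_mul_le_mul_left this ht'
    omega

end Pool.Agent.Run7.h945.SG
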