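import Pool.Agent.Run7.h945.SG.Proj
import Pool.Agent.H217R3.AK.Graph

/-!
The graph form of the Balog-Szemeredi-Gowers theorem: a dense part of `A ⊆ V × V` all of whose
projections have few sums.
-/

set_option autoImplicit false
set_option linter.unusedSectionVars false

namespace Pool.Agent.Run7.h945.SG

open Finset
open scoped Pointwise

variable {V : Type*} [AddCommGroup V] [DecidableEq V] [Module (ZMod 2) V]

/-- paths of length four -/
lemma paths (X1 Y S X' : Finset V) (adj : V → V → Prop) [DecidableRel adj] (M : ℝ) (hM : 0 < M)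
    (hS : ∀ x ∈ X1, ∀ y ∈ Y, adj x y → x + y ∈ S) (hX' : X' ⊆ X1)
    (h : ∀ x ∈ X', ∀ x' ∈ X', (X1.card : ℝ) ≤ 2 * ((X1.filter (fun x'' =>
        ((Y.card : ℝ) ≤ M * (Y.filter (fun y => adj x y ∧ adj x'' y)).card) ∧
        ((Y.card : ℝ) ≤ M * (Y.filter (fun y => adj x' y ∧ adj x'' y)).card))).card : ℝ)) :
    ((X' + X').card : ℝ) * (X1.card * (Y.card : ℝ) ^ 2) ≤ 2 * M ^ 2 * (S.card : ℝ) ^ 4 := by
  classical
  set T : V → Finset (V × V × V × V) := fun d =>
    (S ×ˢ S ×ˢ S ×ˢ S).filter fun t => t.1 + t.2.1 + t.2.2.1 + t.2.2.2 = d with hT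
  have hlow : ∀ d ∈ X' + X', X1.card * (Y.card : ℝ) ^ 2 ≤ 2 * M ^ 2 * ((T d).card : ℝ) := by
    intro d hd
    obtain ⟨x, hx, x', hx', rfl⟩ := mem_add.1 hd
    set G : Finset V := X1.filter (fun x'' =>
        ((Y.card : ℝ) ≤ M * (Y.filter (fun y => adj x y ∧ adj x'' y)).card) ∧
        ((Y.card : ℝ) ≤ M * (Y.filter (fun y => adj x' y ∧ adj x'' y)).card)) with hG
    set W : Finset (Σ _ : V, V × V) := G.sigma fun x'' =>
      (Y.filter fun y => adj x y ∧ adj x'' y) ×ˢ (Y.filter fun y => adj x' y ∧ adj x'' y) with hW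
    have hWT : W.card ≤ (T (x + x')).card := by
      apply card_le_card_of_injOn (fun w : (Σ _ : V, V × V) =>
        (x + w.2.1, w.1 + w.2.1, w.1 + w.2.2, x' + w.2.2))
      · rintro ⟨z, y, y'⟩ hw
        simp only [hW, mem_coe, mem_sigma, mem_product, mem_filter, hG] at hw
        obtain ⟨⟨hz, -⟩, ⟨hy, h1, h2⟩, hy', h3, h4⟩ := hw
        simp only [hT, mem_coe, mem_filter, mem_product]
        refine ⟨⟨hS _ (hX' hx) _ hy h1, hS _ hz _ hy h2, hS _ hz _ hy' h4, hS _ (hX' hx') _ hy' h3⟩,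
          ?_⟩
        have e : x + y + (z + y) + (z + y') + (x' + y') =
            x + x' + ((y + y) + (z + z) + (y' + y')) := by abel
        rw [e, two y, two z, two y', add_zero, add_zero, add_zero]
      · rintro ⟨z, y, y'⟩ _ ⟨z1, y1, y1'⟩ _ heq
        simp only [Prod.mk.injEq] at heq
        obtain ⟨h1, h2, h3, h4⟩ := heq
        have e1 : y = y1 := add_left_cancel h1
        have e2 : y' = y1' := add_left_cancel h4
        subst e1 e2
        have e3 : z = z1 := add_right_cancel h2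
        subst e3
        rfl
    have hcard : (W.card : ℝ) = ∑ x'' ∈ G, ((Y.filter fun y => adj x y ∧ adj x'' y).card : ℝ) *
        ((Y.filter fun y => adj x' y ∧ adj x'' y).card : ℝ) := by
      rw [hW, card_sigma]
      push_cast
      exact sum_congr rfl fun _ _ => by rw [card_product]; push_cast; rfl
    have h5 : (G.card : ℝ) * (Y.card : ℝ) ^ 2 ≤ M ^ 2 * (W.card : ℝ) := by
      rw [hcard, mul_sum, ← nsmul_eq_mul]
      apply card_nsmul_le_sum
      intro z hz
      rw [hG, mem_filter] at hz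
      calc (Y.card : ℝ) ^ 2 = (Y.card : ℝ) * Y.card := sq _
        _ ≤ (M * (Y.filter (fun y => adj x y ∧ adj z y)).card) *
            (M * (Y.filter (fun y => adj x' y ∧ adj z y)).card) :=
            mul_le_mul hz.2.1 hz.2.2 (Nat.cast_nonneg _) (by positivity)
        _ = _ := by ring
    have h6 := h x hx x' hx'
    rw [← hG] at h6
    calc X1.card * (Y.card : ℝ) ^ 2 ≤ (2 * G.card) * (Y.card : ℝ) ^ 2 :=
          mul_le_mul_of_nonneg_right h6 (by positivity)
      _ = 2 * (G.card * (Y.card : ℝ) ^ 2) := by ring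
      _ ≤ 2 * (M ^ 2 * W.card) := mul_le_mul_of_nonneg_left h5 (by norm_num)
      _ ≤ 2 * (M ^ 2 * (T (x + x')).card) := by
          have : (W.card : ℝ) ≤ (T (x + x')).card := by exact_mod_cast hWT
          have hM2 : 0 ≤ M ^ 2 := by positivity
          nlinarith
      _ = _ := by ring
  have hup : ∑ d ∈ X' + X', (T d).card ≤ S.card ^ 4 := by
    have h1 : ∑ d ∈ X' + X', (T d).card = ((X' + X').biUnion T).card := by
      rw [card_biUnion]
      intro d _ d' _ hdd
      change Disjoint (T d) (T d')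
      rw [disjoint_left]
      intro t ht ht'
      simp only [hT, mem_filter] at ht ht'
      exact hdd (ht.2.symm.trans ht'.2)
    rw [h1]
    calc ((X' + X').biUnion T).card ≤ (S ×ˢ S ×ˢ S ×ˢ S).card := by
          apply card_le_card
          intro t ht
          obtain ⟨d, -, hd⟩ := mem_biUnion.1 ht
          exact (mem_filter.1 hd).1
      _ = S.card ^ 4 := by
          rw [card_product, card_product, card_product]
          ring
  calc ((X' + X').card : ℝ) * (X1.card * (Y.card : ℝ) ^ 2)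
      ≤ ∑ d ∈ X' + X', 2 * M ^ 2 * ((T d).card : ℝ) := by
        rw [← nsmul_eq_mul]
        exact card_nsmul_le_sum _ _ _ hlow
    _ = 2 * M ^ 2 * ((∑ d ∈ X' + X', (T d).card : ℕ) : ℝ) := by
        rw [← mul_sum]
        push_cast
        rfl
    _ ≤ 2 * M ^ 2 * (S.card : ℝ) ^ 4 := by
        apply mul_le_mul_of_nonneg_left _ (by positivity)
        exact_mod_cast hup

/-- one step -/
theorem step {A : Finset (V × V)} {N K : ℝ} (hN : 0 < N) (hK : 0 < K)
    (hX : ((px A).card : ℝ) ≤ N) (hY : ((py A).card : ℝ) ≤ N) (hS : ((ps A).card : ℝ) ≤ N)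
    (hA : N ^ 2 ≤ K * A.card) :
    ∃ A' ⊆ A, N ^ 2 ≤ 32 * K ^ 3 * A'.card ∧
      ((px A' + px A').card : ℝ) ≤ 2 ^ 18 * K ^ 8 * N := by
  classical
  set X := px A with hXd
  set Y := py A with hYd
  set deg : V → ℕ := fun x => (Y.filter fun y => (x, y) ∈ A).card with hdeg
  -- the number of the elements of `A` over a set
  have hover : ∀ Z : Finset V, (A.filter fun q => q.1 ∈ Z).card = ∑ x ∈ Z, deg x := by
    intro Z
    rw [card_eq_sum_card_fiberwise (f := Prod.fst) (t := Z) (fun q hq => by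
      rw [mem_coe, mem_filter] at hq
      exact hq.2)]
    refine sum_congr rfl fun x hx => ?_
    rw [hdeg]
    apply card_bij (fun q _ => q.2)
    · rintro ⟨a, b⟩ hq
      rw [mem_filter, mem_filter] at hq
      obtain ⟨⟨h1, h2⟩, h3⟩ := hq
      simp only at h3
      subst h3
      exact mem_filter.2 ⟨mem_py h1, h1⟩
    · rintro ⟨a, b⟩ hq ⟨a', b'⟩ hq' h
      rw [mem_filter, mem_filter] at hq hq'
      simp only at h
      exact Prod.ext (hq.2.trans hq'.2.symm) h
    · intro y hy
      rw [mem_filter] at hy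
      exact ⟨(x, y), mem_filter.2 ⟨mem_filter.2 ⟨hy.2, hx⟩, rfl⟩, rfl⟩
  have hall : (A.card : ℝ) = ((∑ x ∈ X, deg x : ℕ) : ℝ) := by
    rw [← hover]
    congr 2
    ext q
    rw [mem_filter]
    exact ⟨fun h => ⟨h, mem_px h⟩, fun h => h.1⟩
  set X0 := X.filter fun x => N ≤ 2 * K * deg x with hX0
  set e : ℕ := ∑ x ∈ X0, deg x with he
  have hsplit : (A.card : ℝ) = e + ((∑ x ∈ X.filter (fun x => ¬ N ≤ 2 * K * deg x), deg x : ℕ) : ℝ) := by
    rw [hall, he, ← Nat.cast_add]
    congr 1
    exact (sum_filter_add_sum_filter_not _ _ _).symm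
  have hlight : 2 * K * ((∑ x ∈ X.filter (fun x => ¬ N ≤ 2 * K * deg x), deg x : ℕ) : ℝ) ≤
      N ^ 2 := by
    push_cast
    rw [mul_sum]
    calc ∑ x ∈ X.filter (fun x => ¬ N ≤ 2 * K * deg x), 2 * K * (deg x : ℝ)
        ≤ (X.filter (fun x => ¬ N ≤ 2 * K * deg x)).card • N := by
          apply sum_le_card_nsmul
          intro x hx
          exact (not_le.1 (mem_filter.1 hx).2).le
      _ ≤ N ^ 2 := by
          rw [nsmul_eq_mul, sq]
          apply mul_le_mul_of_nonneg_right _ hN.le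
          refine le_trans ?_ hX
          exact_mod_cast card_filter_le _ _
  have hele : N ^ 2 ≤ 2 * K * (e : ℝ) := by
    rw [hsplit] at hA
    nlinarith
  have he2 : (e : ℝ) ≤ X0.card * Y.card := by
    have : e ≤ X0.card * Y.card := by
      rw [he, ← smul_eq_mul]
      exact sum_le_card_nsmul _ _ _ fun x _ => card_filter_le _ _
    exact_mod_cast this
  have hepos : (0 : ℝ) < e := by
    by_contra hcon
    have h1 : 2 * K * (e : ℝ) ≤ 0 := mul_nonpos_of_nonneg_of_nonpos (by positivity) (not_lt.1 hcon)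
    have h2 : 0 < N ^ 2 := by positivity
    linarith
  have hX0N : (X0.card : ℝ) ≤ N := le_trans (by exact_mod_cast card_filter_le _ _) hX
  have hX0pos : (0 : ℝ) < X0.card := by
    rcases (Nat.cast_nonneg X0.card : (0 : ℝ) ≤ X0.card).eq_or_lt with h | h
    · rw [← h, zero_mul] at he2
      linarith
    · exact h
  have hYpos : (0 : ℝ) < Y.card := by
    rcases (Nat.cast_nonneg Y.card : (0 : ℝ) ≤ Y.card).eq_or_lt with h | h
    · rw [← h, mul_zero] at he2
      linarith
    · exact h
  have hNX : N ≤ 2 * K * X0.card := by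
    have h1 : N * N ≤ (2 * K * X0.card) * N := by
      calc N * N = N ^ 2 := (sq N).symm
        _ ≤ 2 * K * (e : ℝ) := hele
        _ ≤ 2 * K * (X0.card * Y.card) := mul_le_mul_of_nonneg_left he2 (by positivity)
        _ ≤ 2 * K * (X0.card * N) := by
            apply mul_le_mul_of_nonneg_left _ (by positivity)
            exact mul_le_mul_of_nonneg_left hY hX0pos.le
        _ = _ := by ring
    exact le_of_mul_le_mul_right h1 hN
  have hNY : N ≤ 2 * K * Y.card := by
    have h1 : N * N ≤ (2 * K * Y.card) * N := by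
      calc N * N = N ^ 2 := (sq N).symm
        _ ≤ 2 * K * (e : ℝ) := hele
        _ ≤ 2 * K * (X0.card * Y.card) := mul_le_mul_of_nonneg_left he2 (by positivity)
        _ ≤ 2 * K * (N * Y.card) := by
            apply mul_le_mul_of_nonneg_left _ (by positivity)
            exact mul_le_mul_of_nonneg_right hX0N hYpos.le
        _ = _ := by ring
    exact le_of_mul_le_mul_right h1 hN
  have hedge : (∑ y ∈ Y, ((X0.filter (fun x => (x, y) ∈ A)).card : ℝ)) = e := by
    rw [he]
    push_cast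
    simp only [hdeg, card_filter]
    push_cast
    exact sum_comm
  have hden : (X0.card : ℝ) * Y.card ≤
      2 * K * ∑ y ∈ Y, ((X0.filter (fun x => (x, y) ∈ A)).card : ℝ) := by
    rw [hedge]
    calc (X0.card : ℝ) * Y.card ≤ N * N := mul_le_mul hX0N hY hYpos.le hN.le
      _ = N ^ 2 := (sq N).symm
      _ ≤ _ := hele
  obtain ⟨X1, hX1, X', hX', h1, h2, h3⟩ := Pool.Agent.H217R3.AK.graph X0 Y
    (fun x y => (x, y) ∈ A) (2 * K) (by positivity) (card_pos.1 (by exact_mod_cast hX0pos))
    (card_pos.1 (by exact_mod_cast hYpos)) (by convert hden)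
  have h4 := paths X1 Y (ps A) X' (fun x y => (x, y) ∈ A) (16 * (2 * K) ^ 2) (by positivity)
    (fun x _ y _ hxy => mem_ps hxy) hX' (by
      intro x hx x' hx'
      convert h3 x hx x' hx')
  set D : ℝ := ((X' + X').card : ℝ) with hD
  have hD0 : 0 ≤ D := Nat.cast_nonneg _
  have hX1N : N ≤ 8 * K ^ 2 * X1.card := by
    calc N ≤ 2 * K * X0.card := hNX
      _ ≤ 2 * K * (2 * (2 * K) * X1.card) := mul_le_mul_of_nonneg_left h1 (by positivity)
      _ = _ := by ring
  have hX'N : N ≤ 16 * K ^ 2 * X'.card := by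
    calc N ≤ 8 * K ^ 2 * X1.card := hX1N
      _ ≤ 8 * K ^ 2 * (2 * X'.card) := mul_le_mul_of_nonneg_left h2 (by positivity)
      _ = _ := by ring
  refine ⟨A.filter fun q => q.1 ∈ X', filter_subset _ _, ?_, ?_⟩
  · have h5 : N * X'.card ≤ 2 * K * ((A.filter fun q => q.1 ∈ X').card : ℝ) := by
      rw [hover]
      push_cast
      rw [mul_sum, mul_comm N, ← nsmul_eq_mul]
      apply card_nsmul_le_sum
      intro x hx
      exact (mem_filter.1 (hX1 (hX' hx))).2
    calc N ^ 2 = N * N := sq N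
      _ ≤ N * (16 * K ^ 2 * X'.card) := mul_le_mul_of_nonneg_left hX'N hN.le
      _ = 16 * K ^ 2 * (N * X'.card) := by ring
      _ ≤ 16 * K ^ 2 * (2 * K * ((A.filter fun q => q.1 ∈ X').card : ℝ)) :=
          mul_le_mul_of_nonneg_left h5 (by positivity)
      _ = _ := by ring
  · have h6 : ((px (A.filter fun q => q.1 ∈ X') + px (A.filter fun q => q.1 ∈ X')).card : ℝ) ≤ D := by
      rw [hD]
      have hsub : px (A.filter fun q => q.1 ∈ X') ⊆ X' := by
        intro x hx
        obtain ⟨q, hq, rfl⟩ := mem_image.1 hx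
        exact (mem_filter.1 hq).2
      exact_mod_cast card_le_card (add_subset_add hsub hsub)
    refine h6.trans ?_
    have h7 : D * N ^ 3 ≤ (2 ^ 18 * K ^ 8 * N) * N ^ 3 := by
      have hy2 : N ^ 2 ≤ (2 * K * Y.card) ^ 2 := pow_le_pow_left₀ hN.le hNY 2
      have hs4 : ((ps A).card : ℝ) ^ 4 ≤ N ^ 4 := pow_le_pow_left₀ (Nat.cast_nonneg _) hS 4
      calc D * N ^ 3 = D * (N * N ^ 2) := by ring
        _ ≤ D * ((8 * K ^ 2 * X1.card) * (2 * K * Y.card) ^ 2) := by
            apply mul_le_mul_of_nonneg_left _ hD0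
            exact mul_le_mul hX1N hy2 (by positivity) (by positivity)
        _ = 32 * K ^ 4 * (D * (X1.card * (Y.card : ℝ) ^ 2)) := by ring
        _ ≤ 32 * K ^ 4 * (2 * (16 * (2 * K) ^ 2) ^ 2 * ((ps A).card : ℝ) ^ 4) :=
            mul_le_mul_of_nonneg_left h4 (by positivity)
        _ ≤ 32 * K ^ 4 * (2 * (16 * (2 * K) ^ 2) ^ 2 * N ^ 4) := by
            apply mul_le_mul_of_nonneg_left _ (by positivity)
            exact mul_le_mul_of_nonneg_left hs4 (by positivity)
        _ = _ := by ring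
    exact le_of_mul_le_mul_right h7 (by positivity)

end Pool.Agent.Run7.h945.SG
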