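import Pool.Agent.Run7.h945.SG.Bound
import Pool.Agent.Run7.h945.SG.Step

/-!
A power-saving bound for the corner-free subsets of `(F_2^n)^2` implies a power-saving bound in
terms of the sizes of the three projections.
-/

set_option autoImplicit false
set_option linter.unusedSectionVars false

namespace Pool.Agent.Run7.h945.SG

open Finset
open scoped Pointwise

section three

variable {V : Type*} [AddCommGroup V] [DecidableEq V] [Module (ZMod 2) V]

lemma pull {A : Finset (V × V)} {B : Finset (V × V)}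
    (hB : B ⊆ A.map (rot (V := V)).toEmbedding) :
    ∃ A' ⊆ A, B = A'.map (rot (V := V)).toEmbedding := by
  refine ⟨B.map (rot (V := V)).symm.toEmbedding, ?_, ?_⟩
  · intro q hq
    rw [mem_map_equiv, Equiv.symm_symm] at hq
    have h1 := hB hq
    rw [mem_map_equiv, Equiv.symm_apply_apply] at h1
    exact h1
  · ext q
    rw [mem_map_equiv, mem_map_equiv, Equiv.symm_symm, Equiv.apply_symm_apply]

/-- A large part of a dense set has projections with few sums. -/
theorem three {A : Finset (V × V)} {N K : ℝ} (hN : 0 < N) (hK : 0 < K)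
    (hX : ((px A).card : ℝ) ≤ N) (hY : ((py A).card : ℝ) ≤ N) (hS : ((ps A).card : ℝ) ≤ N)
    (hA : N ^ 2 ≤ K * A.card) :
    ∃ A' ⊆ A, N ^ 2 ≤ 2 ^ 65 * K ^ 27 * A'.card ∧ (P A' : ℝ) ≤ 2 ^ 254 * K ^ 104 * N ^ 3 := by
  obtain ⟨A1, hA1, h1, h2⟩ := step hN hK hX hY hS hA
  have hX1 : ((px A1).card : ℝ) ≤ N := le_trans (by exact_mod_cast card_le_card (px_mono hA1)) hX
  have hY1 : ((py A1).card : ℝ) ≤ N := le_trans (by exact_mod_cast card_le_card (py_mono hA1)) hY
  have hS1 : ((ps A1).card : ℝ) ≤ N := le_trans (by exact_mod_cast card_le_card (ps_mono hA1)) hS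
  obtain ⟨B2, hB2, h3, h4⟩ := step (A := A1.map (rot (V := V)).toEmbedding) (K := 32 * K ^ 3) hN
    (by positivity) (by rwa [px_rot]) (by rwa [py_rot]) (by rwa [ps_rot]) (by rwa [card_map])
  obtain ⟨A2, hA2, rfl⟩ := pull hB2
  rw [px_rot] at h4
  rw [card_map] at h3
  have hX2 : ((px A2).card : ℝ) ≤ N := le_trans (by exact_mod_cast card_le_card (px_mono hA2)) hX1
  have hY2 : ((py A2).card : ℝ) ≤ N := le_trans (by exact_mod_cast card_le_card (py_mono hA2)) hY1
  have hS2 : ((ps A2).card : ℝ) ≤ N := le_trans (by exact_mod_cast card_le_card (ps_mono hA2)) hS1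
  obtain ⟨B3, hB3, h5, h6⟩ := step
    (A := (A2.map (rot (V := V)).toEmbedding).map (rot (V := V)).toEmbedding)
    (K := 32 * (32 * K ^ 3) ^ 3) hN
    (by positivity) (by rwa [px_rot, py_rot]) (by rwa [py_rot, ps_rot]) (by rwa [ps_rot, px_rot])
    (by rwa [card_map, card_map])
  obtain ⟨C3, hC3, rfl⟩ := pull hB3
  obtain ⟨A3, hA3, rfl⟩ := pull hC3
  rw [px_rot, py_rot] at h6
  rw [card_map, card_map] at h5
  refine ⟨A3, hA3.trans (hA2.trans hA1), h5.trans (le_of_eq (by ring)), ?_⟩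
  have e1 : ((px A3 + px A3).card : ℝ) ≤ 2 ^ 18 * K ^ 8 * N := by
    refine le_trans ?_ h2
    have := px_mono (hA3.trans hA2)
    exact_mod_cast card_le_card (add_subset_add this this)
  have e2 : ((py A3 + py A3).card : ℝ) ≤ 2 ^ 18 * (32 * K ^ 3) ^ 8 * N := by
    refine le_trans ?_ h4
    have := py_mono hA3
    exact_mod_cast card_le_card (add_subset_add this this)
  calc (P A3 : ℝ) = ((px A3 + px A3).card : ℝ) * ((py A3 + py A3).card : ℝ) *
        ((ps A3 + ps A3).card : ℝ) := by rw [P]; push_cast; rfl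
    _ ≤ (2 ^ 18 * K ^ 8 * N) * (2 ^ 18 * (32 * K ^ 3) ^ 8 * N) *
        (2 ^ 18 * (32 * (32 * K ^ 3) ^ 3) ^ 8 * N) := by
        apply mul_le_mul _ h6 (Nat.cast_nonneg _) (by positivity)
        exact mul_le_mul e1 e2 (Nat.cast_nonneg _) (by positivity)
    _ = _ := by ring

lemma card_le_mul (A : Finset (V × V)) : A.card ≤ (px A).card * (py A).card := by
  rw [← card_product]
  apply card_le_card
  intro q hq
  exact mem_product.2 ⟨mem_px hq, mem_py hq⟩

set_option exponentiation.threshold 2000 in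
/-- the numerical part -/
lemma numeric {N b t P c K : ℝ} (hc0 : 0 ≤ c) (hc : c ≤ 1) (hN : 1 ≤ N) (hb : 0 < b)
    (hK : K * b = N ^ 2) (hK1 : 1 ≤ K) (ht : 0 ≤ t) (hP0 : 0 ≤ P)
    (h1 : N ^ 2 ≤ 2 ^ 65 * K ^ 27 * t)
    (h2 : P ≤ 2 ^ 254 * K ^ 104 * N ^ 3) (h3 : t ^ 3 ≤ P ^ (2 * (1 - c))) :
    b ≤ 8 * N ^ (2 * (1 - c / 97)) := by
  have hN0 : 0 < N := by linarith
  have hK0 : 0 < K := by linarith
  have hcc : 0 ≤ 2 * (1 - c) := by linarith
  -- `(N^2)^3 ≤ ...`
  have h4 : (N ^ 2) ^ 3 ≤ (2 ^ 65 * K ^ 27) ^ 3 * t ^ 3 := by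
    rw [← mul_pow]
    exact pow_le_pow_left₀ (by positivity) h1 3
  have h5 : P ^ (2 * (1 - c)) ≤ (2 ^ 254 * K ^ 104) ^ 2 * N ^ (6 - 6 * c) := by
    calc P ^ (2 * (1 - c)) ≤ (2 ^ 254 * K ^ 104 * N ^ 3) ^ (2 * (1 - c)) :=
          Real.rpow_le_rpow hP0 h2 hcc
      _ = (2 ^ 254 * K ^ 104) ^ (2 * (1 - c)) * (N ^ 3) ^ (2 * (1 - c)) :=
          Real.mul_rpow (by positivity) (by positivity)
      _ ≤ (2 ^ 254 * K ^ 104) ^ 2 * N ^ (6 - 6 * c) := by
          apply mul_le_mul _ (le_of_eq _) (by positivity) (by positivity)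
          · rw [← Real.rpow_natCast (2 ^ 254 * K ^ 104) 2]
            apply Real.rpow_le_rpow_of_exponent_le
            · have : 1 ≤ K ^ 104 := one_le_pow₀ hK1
              nlinarith
            · push_cast
              linarith
          · rw [← Real.rpow_natCast, ← Real.rpow_mul hN0.le]
            congr 1
            push_cast
            ring
  have h6 : (N ^ 2) ^ 3 ≤ 2 ^ 703 * K ^ 289 * N ^ (6 - 6 * c) := by
    calc (N ^ 2) ^ 3 ≤ (2 ^ 65 * K ^ 27) ^ 3 * t ^ 3 := h4
      _ ≤ (2 ^ 65 * K ^ 27) ^ 3 * ((2 ^ 254 * K ^ 104) ^ 2 * N ^ (6 - 6 * c)) :=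
          mul_le_mul_of_nonneg_left (h3.trans h5) (by positivity)
      _ = _ := by ring
  -- multiply by `b ^ 289`
  have h7 : b ^ 289 * N ^ (6 : ℝ) ≤ 2 ^ 703 * N ^ (584 - 6 * c) := by
    calc b ^ 289 * N ^ (6 : ℝ) = b ^ 289 * (N ^ 2) ^ 3 := by
          rw [show (6 : ℝ) = ((6 : ℕ) : ℝ) by norm_num, Real.rpow_natCast]
          ring
      _ ≤ b ^ 289 * (2 ^ 703 * K ^ 289 * N ^ (6 - 6 * c)) :=
          mul_le_mul_of_nonneg_left h6 (by positivity)
      _ = 2 ^ 703 * ((K * b) ^ 289 * N ^ (6 - 6 * c)) := by ring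
      _ = 2 ^ 703 * N ^ (584 - 6 * c) := by
          rw [hK]
          congr 1
          rw [← pow_mul, ← Real.rpow_natCast, ← Real.rpow_add hN0]
          congr 1
          push_cast
          ring
  have h8 : b ^ 289 ≤ 2 ^ 703 * N ^ (578 - 6 * c) := by
    have e : N ^ (584 - 6 * c) = N ^ (578 - 6 * c) * N ^ (6 : ℝ) := by
      rw [← Real.rpow_add hN0]
      congr 1
      ring
    rw [e, ← mul_assoc] at h7
    exact le_of_mul_le_mul_right h7 (by positivity)
  have h9 : b ^ 289 ≤ (8 * N ^ (2 * (1 - c / 97))) ^ 289 := by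
    calc b ^ 289 ≤ 2 ^ 703 * N ^ (578 - 6 * c) := h8
      _ ≤ 8 ^ 289 * N ^ (2 * (1 - c / 97) * 289) := by
          apply mul_le_mul _ _ (by positivity) (by positivity)
          · rw [show (8 : ℝ) = 2 ^ 3 by norm_num, ← pow_mul]
            exact pow_le_pow_right₀ (by norm_num) (by norm_num)
          · apply Real.rpow_le_rpow_of_exponent_le hN
            have : 2 * (1 - c / 97) * 289 - (578 - 6 * c) = (4 / 97) * c := by ring
            nlinarith
      _ = _ := by
          rw [mul_pow, ← Real.rpow_natCast (N ^ _) 289, ← Real.rpow_mul hN0.le]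
          norm_num
  exact le_of_pow_le_pow_left₀ (by norm_num) (by positivity) h9

end three

variable {V : Type*} [AddCommGroup V] [DecidableEq V] [Module (ZMod 2) V]

/-- the product of the sizes of the three projections -/
def R (A : Finset (V × V)) : ℕ := (px A).card * (py A).card * (ps A).card

lemma R_pos {A : Finset (V × V)} (h : A.Nonempty) : 0 < R A := by
  obtain ⟨a, ha⟩ := h
  refine Nat.mul_pos (Nat.mul_pos ?_ ?_) ?_
  · exact card_pos.2 ⟨_, mem_px ha⟩
  · exact card_pos.2 ⟨_, mem_py ha⟩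
  · exact card_pos.2 ⟨_, mem_ps ha⟩

lemma card_px_big (A : Finset (V × V)) (M : ℕ) : (px (big A M)).card = R A ^ M := by
  rw [big, px_fam, Fintype.card_piFinset, prod_big M fun j => (px (rots A j)).card]
  congr 1
  simp only [rots, Matrix.cons_val, px_rot, py_rot]
  rfl

lemma card_py_big (A : Finset (V × V)) (M : ℕ) : (py (big A M)).card = R A ^ M := by
  rw [big, py_fam, Fintype.card_piFinset, prod_big M fun j => (py (rots A j)).card]
  congr 1
  simp only [rots, Matrix.cons_val, py_rot, ps_rot, R]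
  ring

lemma card_ps_big (A : Finset (V × V)) (M : ℕ) : (ps (big A M)).card = R A ^ M := by
  rw [big, ps_fam, Fintype.card_piFinset, prod_big M fun j => (ps (rots A j)).card]
  congr 1
  simp only [rots, Matrix.cons_val, ps_rot, px_rot, R]
  ring

/-- **The bound by the sizes of the projections.** -/
theorem sparse_bound [Finite V] {c : ℝ} (hc0 : 0 ≤ c) (hc : c ≤ 1)
    (H : ∀ m : ℕ, (_root_.Run7.h125.Sat.Corner.rc m : ℝ) ≤ ((4 : ℝ) ^ (1 - c)) ^ m)
    {A : Finset (V × V)} (hA : Tri A) :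
    (A.card : ℝ) ^ 3 ≤ (R A : ℝ) ^ (2 * (1 - c / 97)) := by
  rcases A.eq_empty_or_nonempty with rfl | hne
  · rw [card_empty, Nat.cast_zero, zero_pow three_ne_zero]
    positivity
  have hR : 1 ≤ R A := R_pos hne
  have hR1 : (1 : ℝ) ≤ R A := by exact_mod_cast hR
  have hA0 : (0 : ℝ) < A.card := by exact_mod_cast hne.card_pos
  refine le_of_pow_le (C := 8) (by positivity) (by positivity) ?_
  intro M _
  set N : ℝ := (R A : ℝ) ^ M with hN
  have hN1 : 1 ≤ N := one_le_pow₀ hR1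
  set b : ℝ := ((big A M).card : ℝ) with hb
  have hbe : b = ((A.card : ℝ) ^ 3) ^ M := by
    rw [hb, card_big]
    push_cast
    rfl
  have hb0 : 0 < b := by rw [hbe]; positivity
  have cX : ((px (big A M)).card : ℝ) = N := by rw [card_px_big, hN]; push_cast; rfl
  have cY : ((py (big A M)).card : ℝ) = N := by rw [card_py_big, hN]; push_cast; rfl
  have cS : ((ps (big A M)).card : ℝ) = N := by rw [card_ps_big, hN]; push_cast; rfl
  have hbN : b ≤ N ^ 2 := by
    have h0 : ((big A M).card : ℝ) ≤ ((px (big A M)).card : ℝ) * ((py (big A M)).card : ℝ) := by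
      exact_mod_cast card_le_mul (big A M)
    rw [cX, cY] at h0
    rw [sq]
    exact h0
  set K : ℝ := N ^ 2 / b with hK
  have hKb : K * b = N ^ 2 := div_mul_cancel₀ _ hb0.ne'
  have hK1 : 1 ≤ K := by
    rw [hK, le_div_iff₀ hb0, one_mul]
    exact hbN
  obtain ⟨A', hA', h1, h2⟩ := three (A := big A M) (N := N) (K := K) (by linarith) (by linarith)
    cX.le cY.le cS.le hKb.ge
  have h3 : (A'.card : ℝ) ^ 3 ≤ (P A' : ℝ) ^ (2 * (1 - c)) :=
    sumset_bound hc H ((tri_big hA M).mono hA')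
  have h4 := numeric hc0 hc hN1 hb0 hKb hK1 (Nat.cast_nonneg _) (Nat.cast_nonneg _) h1 h2 h3
  rw [← hbe]
  refine h4.trans (le_of_eq ?_)
  congr 1
  rw [hN, ← Real.rpow_natCast, ← Real.rpow_natCast, ← Real.rpow_mul (by positivity),
    ← Real.rpow_mul (by positivity), mul_comm]

end Pool.Agent.Run7.h945.SG
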