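import Pool.Agent.Run7.h945.SG.Proj
import Pool.Agent.Run7.h945.SG.Sample

/-!
A power-saving bound for the corner-free subsets of `(F_2^n)^2` is equivalent, with the same
exponent, to an improved Young inequality for the corner-free sets.
-/

set_option autoImplicit false
set_option linter.unusedSectionVars false

namespace Pool.Agent.Run7.h945.SG

open Finset

section transfer

variable {V : Type*} [AddCommGroup V] [DecidableEq V] [Module (ZMod 2) V]

/-- the nonzero differences of the coordinates of a point with the projections -/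
def near (A : Finset (V × V)) (a : V × V) : Finset V :=
  ((px A).image fun x => x - a.1).erase 0 ∪ ((py A).image fun x => x - a.2).erase 0 ∪
    ((ps A).image fun x => x - (a.1 + a.2)).erase 0

lemma card_near (A : Finset (V × V)) (a : V × V) :
    (near A a).card ≤ (px A).card + (py A).card + (ps A).card := by
  refine (card_union_le _ _).trans (Nat.add_le_add ((card_union_le _ _).trans
    (Nat.add_le_add ?_ ?_)) ?_)
  all_goals exact card_erase_le.trans card_image_le

/-- **The transfer by the sizes of the projections.** -/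
theorem transfer_size [Finite V] {A : Finset (V × V)} (hA : Tri A) (m : ℕ)
    (h : 2 * ((px A).card + (py A).card + (ps A).card) ≤ 2 ^ m) :
    A.card ≤ 2 * _root_.Run7.h125.Sat.Corner.rc m := by
  obtain ⟨φ, J, hJ, h1, h2⟩ := sample_half (p := 2) A (near A) (fun a _ => by
    simp [near]) _ (fun a _ => card_near A a) h
  have kx : ∀ a ∈ J, ∀ b ∈ J, φ a.1 = φ b.1 → a.1 = b.1 := by
    intro a ha b hb hab
    by_contra hne
    refine h2 a ha (b.1 - a.1) ?_ (by rw [map_sub, hab, sub_self])
    rw [near, mem_union, mem_union]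
    exact Or.inl (Or.inl (mem_erase.2 ⟨sub_ne_zero.2 fun h' => hne h'.symm,
      mem_image_of_mem (fun x => x - a.1) (mem_px (hJ hb))⟩))
  have ky : ∀ a ∈ J, ∀ b ∈ J, φ a.2 = φ b.2 → a.2 = b.2 := by
    intro a ha b hb hab
    by_contra hne
    refine h2 a ha (b.2 - a.2) ?_ (by rw [map_sub, hab, sub_self])
    rw [near, mem_union, mem_union]
    exact Or.inl (Or.inr (mem_erase.2 ⟨sub_ne_zero.2 fun h' => hne h'.symm,
      mem_image_of_mem (fun x => x - a.2) (mem_py (hJ hb))⟩))
  have ks : ∀ a ∈ J, ∀ b ∈ J, φ (a.1 + a.2) = φ (b.1 + b.2) → a.1 + a.2 = b.1 + b.2 := by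
    intro a ha b hb hab
    by_contra hne
    refine h2 a ha (b.1 + b.2 - (a.1 + a.2)) ?_ (by rw [map_sub, hab, sub_self])
    rw [near, mem_union]
    exact Or.inr (mem_erase.2 ⟨sub_ne_zero.2 fun h' => hne h'.symm,
      mem_image_of_mem (fun x => x - (a.1 + a.2)) (mem_ps (hJ hb))⟩)
  refine h1.trans (Nat.mul_le_mul_left _ ?_)
  set f : V × V → (Fin m → ZMod 2) × (Fin m → ZMod 2) := fun q => (φ q.1, φ q.2) with hf
  have hinj : Set.InjOn f J := by
    intro a ha b hb hab
    exact Prod.ext (kx a ha b hb (congrArg Prod.fst hab)) (ky a ha b hb (congrArg Prod.snd hab))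
  rw [← card_image_of_injOn hinj]
  apply _root_.Run7.h125.Sat.Corner.le_rc
  refine (tri_iff (J.image f)).2 ?_
  intro a' ha' b' hb' c' hc' h1 h2 h3
  obtain ⟨a, ha, rfl⟩ := mem_image.1 ha'
  obtain ⟨b, hb, rfl⟩ := mem_image.1 hb'
  obtain ⟨c, hc, rfl⟩ := mem_image.1 hc'
  simp only [hf] at h1 h2 h3
  rw [← map_add, ← map_add] at h3
  rw [(hA.mono hJ) a ha b hb c hc (kx a ha b hb h1) (ky a ha c hc h2) (ks b hb c hc h3)]

/-- the product of the sizes of the three projections -/
def R (A : Finset (V × V)) : ℕ := (px A).card * (py A).card * (ps A).card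

lemma R_pos {A : Finset (V × V)} (h : A.Nonempty) : 0 < R A :=
  Nat.mul_pos (Nat.mul_pos (h.image _).card_pos (h.image _).card_pos) (h.image _).card_pos

/-- the three rotations of `A` -/
def rots (A : Finset (V × V)) : Fin 3 → Finset (V × V) :=
  ![A, A.map (rot (V := V)).toEmbedding,
    (A.map (rot (V := V)).toEmbedding).map (rot (V := V)).toEmbedding]

lemma tri_rots {A : Finset (V × V)} (h : Tri A) (j : Fin 3) : Tri (rots A j) := by
  fin_cases j
  · exact h
  · exact h.rot
  · exact h.rot.rot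

lemma tri_big0 {A : Finset (V × V)} (h : Tri A) (N : ℕ) :
    Tri (fam fun i : Fin N × Fin 3 => rots A i.2) :=
  Tri.fam fun i => tri_rots h i.2

/-- the product of `N` copies of the three rotations -/
def big (A : Finset (V × V)) (N : ℕ) :
    Finset ((Fin N × Fin 3 → V) × (Fin N × Fin 3 → V)) := fam fun i => rots A i.2

lemma prod_big (N : ℕ) (f : Fin 3 → ℕ) : ∏ i : Fin N × Fin 3, f i.2 = (f 0 * f 1 * f 2) ^ N := by
  rw [Fintype.prod_prod_type]
  simp only [prod_const, card_univ, Fintype.card_fin]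
  rw [Fin.prod_univ_three]

lemma card_big (A : Finset (V × V)) (N : ℕ) : (big A N).card = (A.card ^ 3) ^ N := by
  rw [big, card_fam, prod_big N fun j => (rots A j).card]
  congr 1
  simp only [rots, Matrix.cons_val_zero, Matrix.cons_val_one, Matrix.cons_val_two, Matrix.head_cons,
    Matrix.tail_cons, card_map]
  ring

lemma card_px_big (A : Finset (V × V)) (N : ℕ) : (px (big A N)).card = R A ^ N := by
  rw [big, px_fam, Fintype.card_piFinset, prod_big N fun j => (px (rots A j)).card]
  congr 1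
  simp only [rots, Matrix.cons_val, px_rot, py_rot]
  rfl

lemma card_py_big (A : Finset (V × V)) (N : ℕ) : (py (big A N)).card = R A ^ N := by
  rw [big, py_fam, Fintype.card_piFinset, prod_big N fun j => (py (rots A j)).card]
  congr 1
  simp only [rots, Matrix.cons_val, py_rot, ps_rot, R]
  ring

lemma card_ps_big (A : Finset (V × V)) (N : ℕ) : (ps (big A N)).card = R A ^ N := by
  rw [big, ps_fam, Fintype.card_piFinset, prod_big N fun j => (ps (rots A j)).card]
  congr 1
  simp only [rots, Matrix.cons_val, ps_rot, px_rot, R]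
  ring

/-- **The bound by the sizes of the projections.** -/
theorem size_bound [Finite V] {c : ℝ} (hc : c ≤ 1)
    (H : ∀ m : ℕ, (_root_.Run7.h125.Sat.Corner.rc m : ℝ) ≤ ((4 : ℝ) ^ (1 - c)) ^ m)
    {A : Finset (V × V)} (hA : Tri A) :
    (A.card : ℝ) ^ 3 ≤ (R A : ℝ) ^ (2 * (1 - c)) := by
  have hc' : 0 ≤ 2 * (1 - c) := by linarith
  rcases A.eq_empty_or_nonempty with rfl | hne
  · rw [card_empty, Nat.cast_zero, zero_pow three_ne_zero]
    positivity
  have hP : (0 : ℝ) < R A := by exact_mod_cast R_pos hne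
  refine le_of_pow_le (C := 2 * 12 ^ (2 * (1 - c))) (by positivity) (by positivity) ?_
  intro N _
  have hPN : 1 ≤ 6 * R A ^ N := by
    have := Nat.pow_pos (n := N) (R_pos hne)
    omega
  obtain ⟨m, hm1, hm2⟩ := exists_dim 2 one_lt_two (6 * R A ^ N) hPN
  have h1 : (big A N).card ≤ 2 * _root_.Run7.h125.Sat.Corner.rc m := by
    apply transfer_size (A := big A N) (tri_big0 hA N)
    rw [card_px_big, card_py_big, card_ps_big]
    refine le_trans (le_of_eq ?_) hm1
    ring
  have h2 : (((A.card : ℝ) ^ 3) ^ N) ≤ 2 * ((4 : ℝ) ^ (1 - c)) ^ m := by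
    have h3 : (((big A N).card : ℕ) : ℝ) ≤ 2 * (_root_.Run7.h125.Sat.Corner.rc m : ℝ) := by
      exact_mod_cast h1
    rw [card_big] at h3
    push_cast at h3
    linarith [H m]
  have e4 : ((4 : ℝ) ^ (1 - c)) ^ m = ((2 : ℝ) ^ m) ^ (2 * (1 - c)) := by
    rw [← Real.rpow_natCast, ← Real.rpow_natCast, ← Real.rpow_mul (by norm_num),
      ← Real.rpow_mul (by norm_num), show (4 : ℝ) = 2 ^ (2 : ℝ) by norm_num,
      ← Real.rpow_mul (by norm_num)]
    congr 1
    ring
  rw [e4] at h2
  have hm2' : (2 : ℝ) ^ m ≤ 12 * (R A : ℝ) ^ N := by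
    have : ((2 ^ m : ℕ) : ℝ) ≤ ((2 * (6 * R A ^ N) : ℕ) : ℝ) := by exact_mod_cast hm2
    push_cast at this
    linarith
  calc ((A.card : ℝ) ^ 3) ^ N ≤ 2 * ((2 : ℝ) ^ m) ^ (2 * (1 - c)) := h2
    _ ≤ 2 * (12 * (R A : ℝ) ^ N) ^ (2 * (1 - c)) := by
        have := Real.rpow_le_rpow (by positivity) hm2' hc'
        linarith
    _ = 2 * 12 ^ (2 * (1 - c)) * ((R A : ℝ) ^ (2 * (1 - c))) ^ N := by
        rw [Real.mul_rpow (by norm_num) (by positivity), mul_assoc]
        congr 2
        rw [← Real.rpow_natCast, ← Real.rpow_natCast, ← Real.rpow_mul hP.le,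
          ← Real.rpow_mul hP.le, mul_comm]

end transfer

/-! ### Functions -/

section values

variable {V : Type*} [Fintype V] [DecidableEq V]

/-- a product function on `V^N` takes few values -/
lemma card_values (f : V → ℝ) (N : ℕ) :
    (univ.image fun x : Fin N → V => ∏ i, f (x i)).card ≤ (N + 1) ^ Fintype.card V := by
  have h1 : (univ.image fun x : Fin N → V => ∏ i, f (x i)) ⊆
      (Fintype.piFinset fun _ : V => range (N + 1)).image fun κ => ∏ v, f v ^ κ v := by
    intro t ht
    obtain ⟨x, -, rfl⟩ := mem_image.1 ht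
    refine mem_image.2 ⟨fun v => (univ.filter fun i => x i = v).card, ?_, ?_⟩
    · rw [Fintype.mem_piFinset]
      intro v
      rw [mem_range, Nat.lt_succ_iff]
      refine (card_filter_le _ _).trans ?_
      rw [card_univ, Fintype.card_fin]
    · rw [← Finset.prod_fiberwise_of_maps_to (s := univ) (t := univ) (g := x)
        (fun i _ => mem_univ _)]
      refine prod_congr rfl fun v _ => ?_
      rw [← prod_const]
      refine prod_congr rfl fun i hi => ?_
      rw [(mem_filter.1 hi).2]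
  refine (card_le_card h1).trans (card_image_le.trans ?_)
  rw [Fintype.card_piFinset, prod_const, card_range, card_univ]

/-- a number all of whose powers are at most a polynomial times the powers of `y` is at most `y` -/
lemma le_of_pow_le_poly {x y : ℝ} (hx : 0 ≤ x) (hy : 0 ≤ y) (K : ℕ)
    (h : ∀ N : ℕ, 1 ≤ N → x ^ N ≤ ((N : ℝ) + 1) ^ K * y ^ N) : x ≤ y := by
  by_contra hlt
  push Not at hlt
  have hx0 : 0 < x := lt_of_le_of_lt hy hlt
  rcases hy.eq_or_lt with h0 | hy0
  · have := h 1 le_rfl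
    rw [← h0, pow_one, pow_one, mul_zero] at this
    linarith
  have h1 : 1 < x / y := (one_lt_div hy0).2 hlt
  have h2 := tendsto_pow_const_div_const_pow_of_one_lt K h1
  -- `(N+1)^K <= 2^K N^K`
  have h3 : Filter.Tendsto (fun N : ℕ => 2 ^ K * ((N : ℝ) ^ K / (x / y) ^ N)) Filter.atTop
      (nhds (2 ^ K * 0)) := h2.const_mul _
  rw [mul_zero] at h3
  have h4 := h3.eventually (gt_mem_nhds (show (0 : ℝ) < 1 by norm_num))
  obtain ⟨N, hN, hN1⟩ := (h4.and (Filter.eventually_ge_atTop 1)).exists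
  have h5 : (x / y) ^ N ≤ ((N : ℝ) + 1) ^ K := by
    rw [div_pow, div_le_iff₀ (pow_pos hy0 _)]
    exact h N hN1
  have h6 : ((N : ℝ) + 1) ^ K ≤ 2 ^ K * (N : ℝ) ^ K := by
    rw [← mul_pow]
    apply pow_le_pow_left₀ (by positivity)
    have : (1 : ℝ) ≤ N := by exact_mod_cast hN1
    linarith
  have h7 : 2 ^ K * ((N : ℝ) ^ K / (x / y) ^ N) ≥ 1 := by
    rw [ge_iff_le, ← mul_div_assoc, one_le_div (by positivity)]
    exact h5.trans h6
  linarith

end values

section functions

variable {V : Type*} [AddCommGroup V] [Fintype V] [DecidableEq V]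

/-- the norm `‖f‖_(1/α)` -/
noncomputable def nrm {W : Type*} [Fintype W] (α : ℝ) (f : W → ℝ) : ℝ := (∑ x, f x ^ (1 / α)) ^ α

lemma nrm_nonneg {W : Type*} [Fintype W] (α : ℝ) {f : W → ℝ} (hf : ∀ x, 0 ≤ f x) : 0 ≤ nrm α f :=
  Real.rpow_nonneg (sum_nonneg fun x _ => Real.rpow_nonneg (hf x) _) _

lemma nrm_pow {W : Type*} [Fintype W] {α : ℝ} {f : W → ℝ} (hf : ∀ x, 0 ≤ f x) (N : ℕ) :
    nrm α (fun x : Fin N → W => ∏ i, f (x i)) = nrm α f ^ N := by
  classical
  rw [nrm, nrm]
  have h0 : 0 ≤ ∑ x, f x ^ (1 / α) := sum_nonneg fun x _ => Real.rpow_nonneg (hf x) _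
  have h1 : ∑ x : Fin N → W, (∏ i, f (x i)) ^ (1 / α) = (∑ x, f x ^ (1 / α)) ^ N := by
    rw [Fintype.sum_pow]
    refine sum_congr rfl fun x _ => ?_
    rw [Real.finsetProd_rpow _ _ fun i _ => hf _]
  rw [h1, ← Real.rpow_natCast, ← Real.rpow_natCast, ← Real.rpow_mul h0, ← Real.rpow_mul h0,
    mul_comm]

lemma level_le {W : Type*} [Fintype W] [DecidableEq W] {α : ℝ} (hα : 0 < α) {F : W → ℝ}
    (hF : ∀ x, 0 ≤ F x) (u : ℝ) (hu : 0 ≤ u) :
    u * (((univ.filter fun x => F x = u).card : ℕ) : ℝ) ^ α ≤ nrm α F := by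
  have h1 : (((univ.filter fun x => F x = u).card : ℕ) : ℝ) * u ^ (1 / α) ≤ ∑ x, F x ^ (1 / α) := by
    calc (((univ.filter fun x => F x = u).card : ℕ) : ℝ) * u ^ (1 / α)
        = ∑ x ∈ univ.filter fun x => F x = u, F x ^ (1 / α) := by
          rw [← nsmul_eq_mul, ← sum_const]
          refine sum_congr rfl fun x hx => ?_
          rw [(mem_filter.1 hx).2]
      _ ≤ _ := sum_le_sum_of_subset_of_nonneg (filter_subset _ _)
          fun x _ _ => Real.rpow_nonneg (hF x) _
  calc u * (((univ.filter fun x => F x = u).card : ℕ) : ℝ) ^ α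
      = ((((univ.filter fun x => F x = u).card : ℕ) : ℝ) * u ^ (1 / α)) ^ α := by
        rw [Real.mul_rpow (by positivity) (by positivity), ← Real.rpow_mul hu,
          one_div_mul_cancel hα.ne', Real.rpow_one, mul_comm]
    _ ≤ _ := Real.rpow_le_rpow (by positivity) h1 hα.le

/-- **From sets to functions.** -/
theorem young_of_size {α : ℝ} (hα : 0 < α)
    (H : ∀ (N : ℕ) (B : Finset ((Fin N → V) × (Fin N → V))), Tri B →
      (B.card : ℝ) ≤ (((px B).card * (py B).card * (ps B).card : ℕ) : ℝ) ^ α)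
    {A : Finset (V × V)} (hA : Tri A) (f g h : V → ℝ) (hf : ∀ x, 0 ≤ f x) (hg : ∀ x, 0 ≤ g x)
    (hh : ∀ x, 0 ≤ h x) :
    ∑ q ∈ A, f q.1 * g q.2 * h (q.1 + q.2) ≤ nrm α f * nrm α g * nrm α h := by
  have nf := nrm_nonneg α hf
  have ng := nrm_nonneg α hg
  have nh := nrm_nonneg α hh
  refine le_of_pow_le_poly (sum_nonneg fun q _ => mul_nonneg (mul_nonneg (hf _) (hg _)) (hh _))
    (by positivity) (3 * Fintype.card V) ?_
  intro N _
  set F : (Fin N → V) → ℝ := fun x => ∏ i, f (x i) with hF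
  set G : (Fin N → V) → ℝ := fun x => ∏ i, g (x i) with hG
  set Hh : (Fin N → V) → ℝ := fun x => ∏ i, h (x i) with hH
  have hF0 : ∀ x, 0 ≤ F x := fun x => prod_nonneg fun i _ => hf _
  have hG0 : ∀ x, 0 ≤ G x := fun x => prod_nonneg fun i _ => hg _
  have hH0 : ∀ x, 0 ≤ Hh x := fun x => prod_nonneg fun i _ => hh _
  set B := fam fun _ : Fin N => A with hB
  have hBT : Tri B := Tri.fam fun _ => hA
  -- the power of the sum
  have h1 : (∑ q ∈ A, f q.1 * g q.2 * h (q.1 + q.2)) ^ N =
      ∑ q ∈ B, F q.1 * G q.2 * Hh (q.1 + q.2) := by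
    rw [hB, fam, sum_map]
    have e1 : (∑ q ∈ A, f q.1 * g q.2 * h (q.1 + q.2)) ^ N =
        ∏ _i : Fin N, ∑ q ∈ A, f q.1 * g q.2 * h (q.1 + q.2) := by
      rw [prod_const, card_univ, Fintype.card_fin]
    rw [e1, prod_univ_sum]
    refine sum_congr rfl fun x _ => ?_
    rw [prod_mul_distrib, prod_mul_distrib]
    rfl
  rw [h1]
  -- the classes
  set T : Finset (ℝ × ℝ × ℝ) := (univ.image F) ×ˢ (univ.image G) ×ˢ (univ.image Hh) with hT
  rw [← sum_fiberwise_of_maps_to (s := B) (t := T)
    (g := fun q => (F q.1, G q.2, Hh (q.1 + q.2))) (fun q _ => by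
      rw [hT, mem_product, mem_product]
      exact ⟨mem_image_of_mem _ (mem_univ _), mem_image_of_mem _ (mem_univ _),
        mem_image_of_mem _ (mem_univ _)⟩)]
  have hTc : (T.card : ℝ) ≤ ((N : ℝ) + 1) ^ (3 * Fintype.card V) := by
    have : T.card ≤ (N + 1) ^ (3 * Fintype.card V) := by
      rw [hT, card_product, card_product]
      calc _ ≤ (N + 1) ^ Fintype.card V * ((N + 1) ^ Fintype.card V * (N + 1) ^ Fintype.card V) :=
            Nat.mul_le_mul (card_values f N) (Nat.mul_le_mul (card_values g N) (card_values h N))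
        _ = _ := by ring
    exact_mod_cast this
  have key : ∀ t ∈ T, ∑ q ∈ B.filter (fun q => (F q.1, G q.2, Hh (q.1 + q.2)) = t),
      F q.1 * G q.2 * Hh (q.1 + q.2) ≤ (nrm α f * nrm α g * nrm α h) ^ N := by
    rintro ⟨u, v, w⟩ ht
    rw [hT, mem_product, mem_product] at ht
    obtain ⟨⟨x0, -, hx0⟩, ⟨y0, -, hy0⟩, ⟨z0, -, hz0⟩⟩ :=
      And.intro (mem_image.1 ht.1) (And.intro (mem_image.1 ht.2.1) (mem_image.1 ht.2.2))
    have hu : 0 ≤ u := by
      have := hF0 x0
      rw [hx0] at this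
      exact this
    have hv : 0 ≤ v := by
      have := hG0 y0
      rw [hy0] at this
      exact this
    have hw : 0 ≤ w := by
      have := hH0 z0
      rw [hz0] at this
      exact this
    set B' := B.filter (fun q => (F q.1, G q.2, Hh (q.1 + q.2)) = (u, v, w)) with hB'
    have e1 : ∑ q ∈ B', F q.1 * G q.2 * Hh (q.1 + q.2) = B'.card * (u * v * w) := by
      rw [← nsmul_eq_mul, ← sum_const]
      refine sum_congr rfl fun q hq => ?_
      have h3 := (mem_filter.1 hq).2
      simp only [Prod.mk.injEq] at h3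
      rw [h3.1, h3.2.1, h3.2.2]
    rw [e1]
    have hcard := H N B' (hBT.mono (filter_subset _ _))
    have c1 : (px B').card ≤ (univ.filter fun x => F x = u).card := by
      apply card_le_card
      intro x hx
      obtain ⟨q, hq, rfl⟩ := mem_image.1 hx
      have h3 := (mem_filter.1 hq).2
      simp only [Prod.mk.injEq] at h3
      exact mem_filter.2 ⟨mem_univ _, h3.1⟩
    have c2 : (py B').card ≤ (univ.filter fun x => G x = v).card := by
      apply card_le_card
      intro x hx
      obtain ⟨q, hq, rfl⟩ := mem_image.1 hx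
      have h3 := (mem_filter.1 hq).2
      simp only [Prod.mk.injEq] at h3
      exact mem_filter.2 ⟨mem_univ _, h3.2.1⟩
    have c3 : (ps B').card ≤ (univ.filter fun x => Hh x = w).card := by
      apply card_le_card
      intro x hx
      obtain ⟨q, hq, rfl⟩ := mem_image.1 hx
      have h3 := (mem_filter.1 hq).2
      simp only [Prod.mk.injEq] at h3
      exact mem_filter.2 ⟨mem_univ _, h3.2.2⟩
    set cu := (univ.filter fun x => F x = u).card with hcu
    set cv := (univ.filter fun x => G x = v).card with hcv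
    set cw := (univ.filter fun x => Hh x = w).card with hcw
    have e2 : (B'.card : ℝ) ≤ ((cu : ℝ) ^ α) * ((cv : ℝ) ^ α) * ((cw : ℝ) ^ α) := by
      calc (B'.card : ℝ) ≤ (((px B').card * (py B').card * (ps B').card : ℕ) : ℝ) ^ α := hcard
        _ ≤ ((cu * cv * cw : ℕ) : ℝ) ^ α := by
            apply Real.rpow_le_rpow (Nat.cast_nonneg _) _ hα.le
            exact_mod_cast Nat.mul_le_mul (Nat.mul_le_mul c1 c2) c3
        _ = _ := by
            push_cast
            rw [Real.mul_rpow (by positivity) (by positivity),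
              Real.mul_rpow (by positivity) (by positivity)]
    have l1 := level_le hα hF0 u hu
    have l2 := level_le hα hG0 v hv
    have l3 := level_le hα hH0 w hw
    rw [← hcu, hF, nrm_pow hf] at l1
    rw [← hcv, hG, nrm_pow hg] at l2
    rw [← hcw, hH, nrm_pow hh] at l3
    calc (B'.card : ℝ) * (u * v * w)
        ≤ ((cu : ℝ) ^ α) * ((cv : ℝ) ^ α) * ((cw : ℝ) ^ α) * (u * v * w) :=
          mul_le_mul_of_nonneg_right e2 (by positivity)
      _ = (u * (cu : ℝ) ^ α) * (v * (cv : ℝ) ^ α) * (w * (cw : ℝ) ^ α) := by ring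
      _ ≤ nrm α f ^ N * nrm α g ^ N * nrm α h ^ N := by
          apply mul_le_mul _ l3 (by positivity) (by positivity)
          exact mul_le_mul l1 l2 (by positivity) (by positivity)
      _ = _ := by rw [mul_pow, mul_pow]
  calc _ ≤ ∑ _t ∈ T, (nrm α f * nrm α g * nrm α h) ^ N := sum_le_sum key
    _ = T.card * (nrm α f * nrm α g * nrm α h) ^ N := by rw [sum_const, nsmul_eq_mul]
    _ ≤ _ := mul_le_mul_of_nonneg_right hTc (by positivity)

end functions

end Pool.Agent.Run7.h945.SG
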